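import Mathlib
import Pool.Agent.Lib_helper21.TS.Defs

/-!
# Machines with random access to the input graph and an unbounded memory with locality
-/

namespace Pool.Agent.HM

open Pool.Agent.TS

/-- The registers: the points of `ℤ^D`. -/
abbrev Reg (D : ℕ) : Type := Fin D → ℤ

/-- The distance of two registers: the sum of the distances of their coordinates. -/
def dist {D : ℕ} (x y : Reg D) : ℕ := ∑ i, (x i - y i).natAbs

/-- A nondeterministic, nonuniform machine with random access to a graph on `Fin n`, with states
in `Q` and one register with content in `Γ` for every point of `ℤ^D`. If at time `i` it is in the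
state `q`, it accesses the register `addr i q`. If `γ` is the content of this register, then it
asks the question `ask i q γ` about the graph, and, `a` being the answer, it chooses a member
`(q', γ')` of `next i q γ a`, writes `γ'` into the register and goes to the state `q'`. -/
structure Machine (n D : ℕ) (Q Γ : Type) where
  start : Set Q
  init : Reg D → Γ
  addr : ℕ → Q → Reg D
  ask : ℕ → Q → Γ → Query n
  next : ℕ → Q → Γ → Option (Fin n) → Set (Q × Γ)
  acc : Set Q

/-- `q i`, `c i` are the state and the contents of all the registers at time `i` in a computation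
of `t` steps on the graph `G`. -/
def Machine.IsComputation {n D : ℕ} {Q Γ : Type} (M : Machine n D Q Γ) (G : SimpleGraph (Fin n))
    (t : ℕ) (q : ℕ → Q) (c : ℕ → Reg D → Γ) : Prop :=
  q 0 ∈ M.start ∧ c 0 = M.init ∧ ∀ i < t,
    (q (i + 1), c (i + 1) (M.addr i (q i))) ∈ M.next i (q i) (c i (M.addr i (q i)))
      (answer G (M.ask i (q i) (c i (M.addr i (q i))))) ∧
    ∀ y, y ≠ M.addr i (q i) → c (i + 1) y = c i y

/-- The cost of the first `t` steps, `Z` being the set of the far steps: a far step costs `1`,
any other step costs `1` plus the distance between the registers accessed before and after it. -/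
def Machine.cost {n D : ℕ} {Q Γ : Type} (M : Machine n D Q Γ) (Z : Finset ℕ) (t : ℕ)
    (q : ℕ → Q) : ℕ :=
  ∑ i ∈ Finset.range t, (1 + if i ∈ Z then 0 else dist (M.addr i (q i)) (M.addr (i + 1) (q (i + 1))))

/-- Some computation on `G` ends in an accepting state and costs at most `T`, at most `F` of its
steps being declared far. -/
def Machine.Accepts {n D : ℕ} {Q Γ : Type} (M : Machine n D Q Γ) (T F : ℕ)
    (G : SimpleGraph (Fin n)) : Prop :=
  ∃ (t : ℕ) (q : ℕ → Q) (c : ℕ → Reg D → Γ) (Z : Finset ℕ),
    M.IsComputation G t q c ∧ q t ∈ M.acc ∧ Z.card ≤ F ∧ M.cost Z t q ≤ T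

end Pool.Agent.HM
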