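import Mathlib
import Pool.Agent.Lib_helper21.HM.Defs

/-!
# Trajectories in `ℤ^D`: blocks, local times and components
-/

namespace Pool.Agent.HM

open Finset

section Blocks

/-- The block of side `b` (with offset `o`) of a register. -/
def blk (b o : ℕ) {D : ℕ} (x : Reg D) : Reg D := fun i => (x i + o) / b

lemma hermite_succ (b : ℕ) (hb : 0 < b) (x : ℤ) :
    ∑ o ∈ range b, (x + 1 + o) / (b : ℤ) = ∑ o ∈ range b, (x + o) / (b : ℤ) + 1 := by
  have h1 : ∑ o ∈ range b, (x + 1 + o) / (b : ℤ) =
      ∑ o ∈ range b, (x + ((o + 1 : ℕ) : ℤ)) / (b : ℤ) := by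
    refine Finset.sum_congr rfl fun o _ => ?_
    push_cast
    congr 1
    ring
  have h2 : ∑ o ∈ range b, (x + ((o + 1 : ℕ) : ℤ)) / (b : ℤ) + (x + ((0 : ℕ) : ℤ)) / (b : ℤ) =
      ∑ o ∈ range b, (x + o) / (b : ℤ) + (x + b) / (b : ℤ) := by
    rw [← Finset.sum_range_succ' (fun o => (x + ((o : ℕ) : ℤ)) / (b : ℤ)),
      ← Finset.sum_range_succ (fun o => (x + ((o : ℕ) : ℤ)) / (b : ℤ))]
  have hb' : (b : ℤ) ≠ 0 := by exact_mod_cast hb.ne'
  have h3 : (x + b) / (b : ℤ) = x / b + 1 := by
    rw [Int.add_ediv_of_dvd_right (dvd_refl _), Int.ediv_self hb']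
  rw [h1]
  rw [h3] at h2
  push_cast at h2 ⊢
  rw [add_zero] at h2
  linarith

lemma hermite (b : ℕ) (hb : 0 < b) (x : ℤ) (n : ℕ) :
    ∑ o ∈ range b, (x + n + o) / (b : ℤ) = ∑ o ∈ range b, (x + o) / (b : ℤ) + n := by
  induction n with
  | zero => simp
  | succ n ih =>
    have h := hermite_succ b hb (x + n)
    push_cast
    rw [← add_assoc x, h, ih]
    ring

lemma cross_one (b : ℕ) (hb : 0 < b) (x y : ℤ) :
    ((range b).filter fun o : ℕ => (x + o) / (b : ℤ) ≠ (y + o) / (b : ℤ)).card ≤
      (x - y).natAbs := by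
  wlog hxy : x ≤ y generalizing x y
  · have h := this y x (by omega)
    rw [show (x - y).natAbs = (y - x).natAbs by omega]
    refine le_trans (le_of_eq ?_) h
    congr 1
    ext o
    simp only [Finset.mem_filter]
    exact and_congr_right fun _ => ne_comm
  obtain ⟨n, rfl⟩ : ∃ n : ℕ, y = x + n := ⟨(y - x).toNat, by omega⟩
  have h1 := hermite b hb x n
  have h2 : (((range b).filter fun o : ℕ => (x + o) / (b : ℤ) ≠ (x + n + o) / (b : ℤ)).card : ℤ) ≤
      ∑ o ∈ range b, ((x + n + o) / (b : ℤ) - (x + o) / (b : ℤ)) := by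
    rw [Finset.card_filter]
    push_cast
    refine Finset.sum_le_sum fun o _ => ?_
    have hle : (x + o) / (b : ℤ) ≤ (x + n + o) / (b : ℤ) :=
      Int.ediv_le_ediv (by exact_mod_cast hb) (by omega)
    split_ifs with hne
    · omega
    · omega
  rw [Finset.sum_sub_distrib, h1] at h2
  have h3 : (x - (x + n)).natAbs = n := by omega
  rw [h3]
  have h4 : (((range b).filter fun o : ℕ => (x + o) / (b : ℤ) ≠ (x + n + o) / (b : ℤ)).card : ℤ) ≤
      n := by linarith
  exact_mod_cast h4

lemma cross_card {D : ℕ} (b : ℕ) (hb : 0 < b) (x y : Reg D) :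
    ((range b).filter fun o : ℕ => blk b o x ≠ blk b o y).card ≤ dist x y := by
  classical
  have h1 : ((range b).filter fun o : ℕ => blk b o x ≠ blk b o y) ⊆
      (Finset.univ : Finset (Fin D)).biUnion fun i =>
        (range b).filter fun o : ℕ => (x i + o) / (b : ℤ) ≠ (y i + o) / (b : ℤ) := by
    intro o ho
    rw [Finset.mem_filter] at ho
    obtain ⟨i, hi⟩ := Function.ne_iff.1 ho.2
    rw [Finset.mem_biUnion]
    exact ⟨i, Finset.mem_univ _, Finset.mem_filter.2 ⟨ho.1, hi⟩⟩
  refine (Finset.card_le_card h1).trans (Finset.card_biUnion_le.trans ?_)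
  exact Finset.sum_le_sum fun i _ => cross_one b hb (x i) (y i)

/-- Some offset has few block changes outside a set of times. -/
lemma exists_offset {D : ℕ} (b : ℕ) (hb : 0 < b) (x : ℕ → Reg D) (t : ℕ) (Z : Finset ℕ) :
    ∃ o < b, b * ((range t).filter fun τ => τ ∉ Z ∧ blk b o (x (τ + 1)) ≠ blk b o (x τ)).card ≤
      ∑ τ ∈ range t, if τ ∈ Z then 0 else dist (x τ) (x (τ + 1)) := by
  have h1 : ∑ o ∈ range b,
      ((range t).filter fun τ => τ ∉ Z ∧ blk b o (x (τ + 1)) ≠ blk b o (x τ)).card ≤
      ∑ τ ∈ range t, if τ ∈ Z then 0 else dist (x τ) (x (τ + 1)) := by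
    simp_rw [Finset.card_filter]
    rw [Finset.sum_comm]
    refine Finset.sum_le_sum fun τ _ => ?_
    rw [← Finset.card_filter]
    by_cases hZ : τ ∈ Z
    · rw [if_pos hZ, Nat.le_zero, Finset.card_eq_zero, Finset.filter_eq_empty_iff]
      intro o _ h
      exact h.1 hZ
    · rw [if_neg hZ]
      refine le_trans (le_of_eq ?_) (cross_card b hb (x τ) (x (τ + 1)))
      congr 1
      ext o
      simp only [Finset.mem_filter]
      exact and_congr_right fun _ => ⟨fun h => h.2.symm, fun h => ⟨hZ, h.symm⟩⟩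
  have h2 : ∑ o ∈ range b,
      b * ((range t).filter fun τ => τ ∉ Z ∧ blk b o (x (τ + 1)) ≠ blk b o (x τ)).card ≤
      ∑ _o ∈ range b, ∑ τ ∈ range t, if τ ∈ Z then 0 else dist (x τ) (x (τ + 1)) := by
    rw [← Finset.mul_sum, Finset.sum_const, Finset.card_range, smul_eq_mul]
    exact Nat.mul_le_mul_left _ h1
  obtain ⟨o, ho, h3⟩ := Finset.exists_le_of_sum_le (by simpa using hb.ne') h2
  exact ⟨o, Finset.mem_range.1 ho, h3⟩

/-- All block changes: those outside the set of times, and the others. -/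
lemma changes_le {D : ℕ} (β : ℕ → Reg D) (t : ℕ) (Z : Finset ℕ) :
    ((range t).filter fun τ => β (τ + 1) ≠ β τ).card ≤
      ((range t).filter fun τ => τ ∉ Z ∧ β (τ + 1) ≠ β τ).card + Z.card := by
  refine (Finset.card_le_card (t := ((range t).filter fun τ => τ ∉ Z ∧ β (τ + 1) ≠ β τ) ∪ Z)
    ?_).trans (Finset.card_union_le _ _)
  intro τ hτ
  rw [Finset.mem_filter] at hτ
  rw [Finset.mem_union, Finset.mem_filter]
  by_cases hZ : τ ∈ Z
  · exact Or.inr hZ
  · exact Or.inl ⟨hτ.1, hZ, hτ.2⟩

/-- The register with a given block and a given place in the block. -/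
def absReg (b o : ℕ) {D : ℕ} (v : Reg D) (p : Fin D → Fin b) : Reg D :=
  fun i => v i * b + (p i : ℕ) - o

/-- The place of a register in its block. -/
def place (b o : ℕ) (hb : 0 < b) {D : ℕ} (y : Reg D) : Fin D → Fin b :=
  fun i => ⟨((y i + o) % b).toNat, by
    have h1 := Int.emod_nonneg (y i + o) (show (b : ℤ) ≠ 0 by exact_mod_cast hb.ne')
    have h2 := Int.emod_lt_of_pos (y i + o) (show (0 : ℤ) < b by exact_mod_cast hb)
    omega⟩

lemma absReg_place (b o : ℕ) (hb : 0 < b) {D : ℕ} (y : Reg D) :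
    absReg b o (blk b o y) (place b o hb y) = y := by
  funext i
  simp only [absReg, blk, place]
  have h1 := Int.emod_nonneg (y i + o) (show (b : ℤ) ≠ 0 by exact_mod_cast hb.ne')
  rw [Int.toNat_of_nonneg h1]
  have h2 := Int.ediv_mul_add_emod (y i + o) b
  linarith

end Blocks

section Count

variable {α : Type} [DecidableEq α]

/-- The number of times before `τ` at which `β` has the value `v`. -/
def cnt (β : ℕ → α) (v : α) (τ : ℕ) : ℕ := ((range τ).filter fun σ => β σ = v).card

lemma cnt_succ (β : ℕ → α) (v : α) (τ : ℕ) :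
    cnt β v (τ + 1) = cnt β v τ + if β τ = v then 1 else 0 := by
  unfold cnt
  rw [Finset.range_add_one, Finset.filter_insert]
  split_ifs with h
  · rw [Finset.card_insert_of_notMem (by simp)]
  · simp

lemma cnt_succ_self (β : ℕ → α) (τ : ℕ) : cnt β (β τ) (τ + 1) = cnt β (β τ) τ + 1 := by
  rw [cnt_succ, if_pos rfl]

lemma cnt_succ_of_ne (β : ℕ → α) {v : α} {τ : ℕ} (h : β τ ≠ v) :
    cnt β v (τ + 1) = cnt β v τ := by
  rw [cnt_succ, if_neg h, add_zero]

lemma cnt_congr {β β' : ℕ → α} {v : α} {τ : ℕ} (h : ∀ σ < τ, β σ = β' σ) :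
    cnt β v τ = cnt β' v τ := by
  unfold cnt
  congr 1
  refine Finset.filter_congr fun σ hσ => ?_
  rw [h σ (Finset.mem_range.1 hσ)]

lemma cnt_mono (β : ℕ → α) (v : α) : Monotone (cnt β v) := by
  refine monotone_nat_of_le_succ fun τ => ?_
  rw [cnt_succ]
  omega

lemma cnt_lt {β : ℕ → α} {v : α} {τ τ' : ℕ} (h : τ < τ') (hv : β τ = v) :
    cnt β v τ < cnt β v τ' := by
  have h1 := cnt_mono β v (Nat.succ_le_of_lt h)
  rw [Nat.succ_eq_add_one, cnt_succ, if_pos hv] at h1
  omega

/-- The component at time `τ`: the value of `β` and the number of the local time window. -/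
def kap (β : ℕ → α) (m τ : ℕ) : α × ℕ := (β τ, cnt β (β τ) τ / m)

lemma kap_congr {β β' : ℕ → α} {m τ : ℕ} (h : ∀ σ ≤ τ, β σ = β' σ) :
    kap β m τ = kap β' m τ := by
  unfold kap
  rw [h τ le_rfl, cnt_congr (fun σ hσ => h σ hσ.le)]

/-- At time `τ` a local time window is completed. -/
def ev (β : ℕ → α) (m τ : ℕ) : Prop := m ∣ cnt β (β τ) τ + 1

instance (β : ℕ → α) (m : ℕ) : DecidablePred (ev β m) := fun τ => by
  unfold ev; infer_instance

lemma ev_congr {β β' : ℕ → α} {m τ : ℕ} (h : ∀ σ ≤ τ, β σ = β' σ) :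
    ev β m τ ↔ ev β' m τ := by
  unfold ev
  rw [h τ le_rfl, cnt_congr (fun σ hσ => h σ hσ.le)]

lemma ev_card_eq (β : ℕ → α) (m t : ℕ) : ∀ t' ≤ t,
    ((range t').filter (ev β m)).card = ∑ v ∈ (range t).image β, cnt β v t' / m := by
  intro t'
  induction t' with
  | zero => simp [cnt]
  | succ t' ih =>
    intro ht
    have h1 := ih (by omega)
    rw [Finset.range_add_one, Finset.filter_insert]
    have hmem : β t' ∈ (range t).image β :=
      Finset.mem_image_of_mem _ (Finset.mem_range.2 (by omega))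
    have h2 : ∑ v ∈ (range t).image β, cnt β v (t' + 1) / m =
        ∑ v ∈ (range t).image β, (cnt β v t' / m + if v = β t' then
          (if ev β m t' then 1 else 0) else 0) := by
      refine Finset.sum_congr rfl fun v _ => ?_
      by_cases hv : v = β t'
      · subst hv
        rw [if_pos rfl, cnt_succ_self, Nat.succ_div]
        rfl
      · rw [if_neg hv, cnt_succ_of_ne β (fun h => hv h.symm), add_zero]
    rw [h2, Finset.sum_add_distrib, Finset.sum_ite_eq', if_pos hmem, ← h1]
    split_ifs with h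
    · rw [Finset.card_insert_of_notMem (by simp)]
    · simp

/-- Few windows are completed. -/
lemma ev_card (β : ℕ → α) (m t : ℕ) : ((range t).filter (ev β m)).card * m ≤ t := by
  rw [ev_card_eq β m t t le_rfl, Finset.sum_mul]
  calc ∑ v ∈ (range t).image β, cnt β v t / m * m ≤ ∑ v ∈ (range t).image β, cnt β v t :=
        Finset.sum_le_sum fun v _ => Nat.div_mul_le_self _ _
    _ = (range t).card := by
        rw [Finset.card_eq_sum_card_image β (range t)]
        rfl
    _ = t := Finset.card_range t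

/-- A component has at most `m` time steps. -/
lemma kap_card (β : ℕ → α) (m : ℕ) (hm : 0 < m) (t : ℕ) (κ : α × ℕ) :
    ((range t).filter fun τ => kap β m τ = κ).card ≤ m := by
  obtain ⟨v, k⟩ := κ
  calc ((range t).filter fun τ => kap β m τ = (v, k)).card ≤ (Finset.Ico (k * m) (k * m + m)).card := by
        refine Finset.card_le_card_of_injOn (cnt β v) ?_ ?_
        · intro τ hτ
          rw [Finset.mem_coe, Finset.mem_filter] at hτ
          have h1 := congrArg Prod.fst hτ.2
          have h2 := congrArg Prod.snd hτ.2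
          simp only [kap] at h1 h2
          rw [h1] at h2
          rw [Finset.mem_coe, Finset.mem_Ico, ← h2]
          exact ⟨Nat.div_mul_le_self _ _, Nat.lt_div_mul_add hm⟩
        · intro τ hτ τ' hτ' hττ
          rw [Finset.mem_coe, Finset.mem_filter] at hτ hτ'
          have h1 := congrArg Prod.fst hτ.2
          have h2 := congrArg Prod.fst hτ'.2
          simp only [kap] at h1 h2
          rcases lt_trichotomy τ τ' with h | h | h
          · have := cnt_lt h h1
            omega
          · exact h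
          · have := cnt_lt h h2
            omega
    _ = m := by simp

/-- The component changes only when the block changes or when a window is completed. -/
lemma chg_card (β : ℕ → α) (m t : ℕ) :
    ((range t).filter fun τ => kap β m (τ + 1) ≠ kap β m τ).card ≤
      ((range t).filter fun τ => β (τ + 1) ≠ β τ).card + ((range t).filter (ev β m)).card := by
  rw [← Nat.add_zero (_ + _)]
  refine le_trans (Finset.card_le_card (t := (range t).filter (fun τ => β (τ + 1) ≠ β τ) ∪
    (range t).filter (ev β m)) ?_) (by rw [add_zero]; exact Finset.card_union_le _ _)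
  intro τ hτ
  rw [Finset.mem_filter] at hτ
  rw [Finset.mem_union, Finset.mem_filter, Finset.mem_filter]
  by_cases h : β (τ + 1) = β τ
  · right
    refine ⟨hτ.1, ?_⟩
    by_contra hev
    apply hτ.2
    unfold ev at hev
    unfold kap
    rw [h, cnt_succ_self, Nat.succ_div, if_neg hev, add_zero]
  · left
    exact ⟨hτ.1, h⟩

/-- The blocks are determined by the values at the changes of the component. -/
lemma blocks_eq {β β' : ℕ → α} {m t : ℕ} (h0 : β 0 = β' 0)
    (hX : ∀ τ < t, kap β m (τ + 1) ≠ kap β m τ ↔ kap β' m (τ + 1) ≠ kap β' m τ)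
    (hβ : ∀ τ < t, kap β m (τ + 1) ≠ kap β m τ → β (τ + 1) = β' (τ + 1)) :
    ∀ τ ≤ t, β τ = β' τ := by
  intro τ
  induction τ with
  | zero => intro _; exact h0
  | succ τ ih =>
    intro hτ
    by_cases h : kap β m (τ + 1) ≠ kap β m τ
    · exact hβ τ (by omega) h
    · have h' : ¬ kap β' m (τ + 1) ≠ kap β' m τ := fun h1 => h ((hX τ (by omega)).2 h1)
      push Not at h h'
      have e1 : β (τ + 1) = β τ := congrArg Prod.fst h
      have e2 : β' (τ + 1) = β' τ := congrArg Prod.fst h'
      rw [e1, e2, ih (by omega)]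

end Count

end Pool.Agent.HM
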