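import Mathlib
import Pool.Agent.Lib_helper21.TS.Bound
import Pool.Agent.Lib_helper21.HM.Traj

/-!
# Local machines reading permutations, and mixing of computations
-/

namespace Pool.Agent.HM

open Finset Equiv Pool.Agent.TS

/-- Machines with a local memory that read permutations. -/
structure LM (J B U : Type) (D : ℕ) (Q Γ : Type) where
  start : Q → Prop
  init : Reg D → Γ
  acc : Q → Prop
  addr : ℕ → Q → Reg D
  ask : ℕ → Q → Γ → Option (PQ J B U)
  step : ℕ → Q → Γ → Option U → Q → Γ → Prop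

/-- Configurations. -/
abbrev Conf (D : ℕ) (Q Γ : Type) : Type := Q × (Reg D → Γ)

section Basic

variable {J B U Q Γ : Type} {D : ℕ}

/-- The register accessed at time `τ`. -/
def LM.pos (M : LM J B U D Q Γ) (p : ℕ → Conf D Q Γ) (τ : ℕ) : Reg D := M.addr τ (p τ).1

/-- The query of a configuration. -/
def LM.askc (M : LM J B U D Q Γ) (p : ℕ → Conf D Q Γ) (τ : ℕ) : Option (PQ J B U) :=
  M.ask τ (p τ).1 ((p τ).2 (M.pos p τ))

/-- `p` is an accepting run of `t` steps on `z`. -/
structure LM.Run (M : LM J B U D Q Γ) (t : ℕ) (z : Inp J B U) (p : ℕ → Conf D Q Γ) : Prop where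
  start : M.start (p 0).1
  c0 : (p 0).2 = M.init
  step : ∀ τ < t, M.step τ (p τ).1 ((p τ).2 (M.pos p τ))
    ((M.askc p τ).map (ans z)) (p (τ + 1)).1 ((p (τ + 1)).2 (M.pos p τ))
  other : ∀ τ < t, ∀ y, y ≠ M.pos p τ → (p (τ + 1)).2 y = (p τ).2 y
  acc : M.acc (p t).1

/-- The blocks visited. -/
def LM.bl (M : LM J B U D Q Γ) (b o : ℕ) (p : ℕ → Conf D Q Γ) : ℕ → Reg D :=
  fun τ => blk b o (M.pos p τ)

/-- The cost of the step at time `τ`, `Z` being the set of the far steps. -/
def LM.stepCost (M : LM J B U D Q Γ) (Z : Finset ℕ) (p : ℕ → Conf D Q Γ) (τ : ℕ) : ℕ :=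
  1 + if τ ∈ Z then 0 else dist (M.pos p τ) (M.pos p (τ + 1))

/-- The cost of `t` steps. -/
def LM.cost (M : LM J B U D Q Γ) (Z : Finset ℕ) (t : ℕ) (p : ℕ → Conf D Q Γ) : ℕ :=
  ∑ τ ∈ range t, M.stepCost Z p τ

/-- The mixed run. -/
def mixRun (M : LM J B U D Q Γ) (b o m : ℕ) (χ : Reg D × ℕ → Bool) (p p' : ℕ → Conf D Q Γ) :
    ℕ → Conf D Q Γ :=
  fun τ => (if χ (kap (M.bl b o p) m τ) then (p τ).1 else (p' τ).1,
    fun y => if χ (blk b o y, cnt (M.bl b o p) (blk b o y) τ / m) then (p τ).2 y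
      else (p' τ).2 y)

section Mix

variable (M : LM J B U D Q Γ) (b o m t : ℕ) (z1 z2 zh : Inp J B U) (p p' : ℕ → Conf D Q Γ)
  (χ : Reg D × ℕ → Bool)

lemma mixRun_next (τ : ℕ)
    (hmk : kap (M.bl b o p) m (τ + 1) ≠ kap (M.bl b o p) m τ → (p (τ + 1)).1 = (p' (τ + 1)).1) :
    (mixRun M b o m χ p p' (τ + 1)).1 =
      (if χ (kap (M.bl b o p) m τ) then (p (τ + 1)).1 else (p' (τ + 1)).1) := by
  unfold mixRun
  simp only
  by_cases h : kap (M.bl b o p) m (τ + 1) = kap (M.bl b o p) m τ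
  · rw [h]
  · rw [hmk h]
    simp

lemma mixRun_pos (τ : ℕ) : M.pos (mixRun M b o m χ p p') τ =
    if χ (kap (M.bl b o p) m τ) then M.pos p τ else M.pos p' τ := by
  unfold LM.pos mixRun
  simp only
  split_ifs <;> rfl

lemma mixRun_pos_next (τ : ℕ)
    (hmk : kap (M.bl b o p) m (τ + 1) ≠ kap (M.bl b o p) m τ → (p (τ + 1)).1 = (p' (τ + 1)).1) :
    M.pos (mixRun M b o m χ p p') (τ + 1) =
      if χ (kap (M.bl b o p) m τ) then M.pos p (τ + 1) else M.pos p' (τ + 1) := by
  unfold LM.pos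
  rw [mixRun_next M b o m p p' χ τ hmk]
  split_ifs <;> rfl

lemma mixRun_content (τ : ℕ) (y : Reg D) (hy : blk b o y = M.bl b o p τ) :
    (mixRun M b o m χ p p' τ).2 y =
      if χ (kap (M.bl b o p) m τ) then (p τ).2 y else (p' τ).2 y := by
  unfold mixRun kap
  simp only
  rw [hy]

lemma mixRun_content_next (τ : ℕ) (y : Reg D) (hy : blk b o y = M.bl b o p τ)
    (hct : ev (M.bl b o p) m τ → (p (τ + 1)).2 y = (p' (τ + 1)).2 y) :
    (mixRun M b o m χ p p' (τ + 1)).2 y =
      if χ (kap (M.bl b o p) m τ) then (p (τ + 1)).2 y else (p' (τ + 1)).2 y := by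
  unfold mixRun kap
  simp only
  rw [hy, cnt_succ_self]
  by_cases hev : ev (M.bl b o p) m τ
  · rw [hct hev]
    simp
  · have h1 : (cnt (M.bl b o p) (M.bl b o p τ) τ + 1) / m =
        cnt (M.bl b o p) (M.bl b o p τ) τ / m := by
      unfold ev at hev
      rw [Nat.succ_div, if_neg hev, add_zero]
    rw [h1]

lemma mixRun_content_other (τ : ℕ) (y : Reg D) (hy : blk b o y ≠ M.bl b o p τ)
    (h : (p (τ + 1)).2 y = (p τ).2 y) (h' : (p' (τ + 1)).2 y = (p' τ).2 y) :
    (mixRun M b o m χ p p' (τ + 1)).2 y = (mixRun M b o m χ p p' τ).2 y := by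
  unfold mixRun
  simp only
  rw [cnt_succ_of_ne _ (fun h => hy h.symm), h, h']

variable {M b o m t z1 z2 zh p p' χ}

/-- Mixing two runs. -/
lemma mixRun_run (hp : M.Run t z1 p) (hp' : M.Run t z2 p')
    (hβ : ∀ τ ≤ t, M.bl b o p τ = M.bl b o p' τ)
    (hmk : ∀ τ < t, kap (M.bl b o p) m (τ + 1) ≠ kap (M.bl b o p) m τ →
      (p (τ + 1)).1 = (p' (τ + 1)).1)
    (hct : ∀ τ < t, ev (M.bl b o p) m τ → ∀ y, blk b o y = M.bl b o p τ →
      (p (τ + 1)).2 y = (p' (τ + 1)).2 y)
    (h1 : ∀ τ < t, χ (kap (M.bl b o p) m τ) = true →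
      (M.askc p τ).map (ans zh) = (M.askc p τ).map (ans z1))
    (h2 : ∀ τ < t, χ (kap (M.bl b o p) m τ) = false →
      (M.askc p' τ).map (ans zh) = (M.askc p' τ).map (ans z2)) :
    M.Run t zh (mixRun M b o m χ p p') := by
  refine ⟨?_, ?_, ?_, ?_, ?_⟩
  · unfold mixRun
    simp only
    split_ifs
    · exact hp.start
    · exact hp'.start
  · unfold mixRun
    simp only
    rw [hp.c0, hp'.c0]
    simp
  · intro τ hτ
    have n1 := mixRun_next M b o m p p' χ τ (hmk τ hτ)
    have hbx : blk b o (M.pos p τ) = M.bl b o p τ := rfl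
    have hbx' : blk b o (M.pos p' τ) = M.bl b o p τ := (hβ τ hτ.le).symm
    have e2 := mixRun_pos M b o m p p' χ τ
    by_cases hc : χ (kap (M.bl b o p) m τ) = true
    · have e1 : (mixRun M b o m χ p p' τ).1 = (p τ).1 := by unfold mixRun; simp [hc]
      rw [if_pos hc] at e2 n1
      have e3 : (mixRun M b o m χ p p' τ).2 (M.pos p τ) = (p τ).2 (M.pos p τ) := by
        rw [mixRun_content M b o m p p' χ τ _ hbx, if_pos hc]
      have e4 : (mixRun M b o m χ p p' (τ + 1)).2 (M.pos p τ) = (p (τ + 1)).2 (M.pos p τ) := by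
        rw [mixRun_content_next M b o m p p' χ τ _ hbx (fun hev => hct τ hτ hev _ hbx), if_pos hc]
      unfold LM.askc
      rw [e2, e1, e3, e4, n1]
      have := hp.step τ hτ
      rw [← h1 τ hτ hc] at this
      exact this
    · have hc' : χ (kap (M.bl b o p) m τ) = false := by simpa using hc
      have e1 : (mixRun M b o m χ p p' τ).1 = (p' τ).1 := by unfold mixRun; simp [hc']
      rw [if_neg hc] at e2 n1
      have e3 : (mixRun M b o m χ p p' τ).2 (M.pos p' τ) = (p' τ).2 (M.pos p' τ) := by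
        rw [mixRun_content M b o m p p' χ τ _ hbx', if_neg hc]
      have e4 : (mixRun M b o m χ p p' (τ + 1)).2 (M.pos p' τ) =
          (p' (τ + 1)).2 (M.pos p' τ) := by
        rw [mixRun_content_next M b o m p p' χ τ _ hbx' (fun hev => hct τ hτ hev _ hbx'),
          if_neg hc]
      unfold LM.askc
      rw [e2, e1, e3, e4, n1]
      have := hp'.step τ hτ
      rw [← h2 τ hτ hc'] at this
      exact this
  · intro τ hτ y hy
    by_cases hyb : blk b o y = M.bl b o p τ
    · rw [mixRun_content_next M b o m p p' χ τ y hyb (fun hev => hct τ hτ hev y hyb),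
        mixRun_content M b o m p p' χ τ y hyb]
      have e2 := mixRun_pos M b o m p p' χ τ
      by_cases hc : χ (kap (M.bl b o p) m τ) = true
      · rw [if_pos hc] at e2
        rw [e2] at hy
        rw [if_pos hc, if_pos hc]
        exact hp.other τ hτ y hy
      · rw [if_neg hc] at e2
        rw [e2] at hy
        rw [if_neg hc, if_neg hc]
        exact hp'.other τ hτ y hy
    · have hx : y ≠ M.pos p τ := by
        rintro rfl
        exact hyb rfl
      have hx' : y ≠ M.pos p' τ := by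
        rintro rfl
        exact hyb (hβ τ hτ.le).symm
      exact mixRun_content_other M b o m p p' χ τ y hyb (hp.other τ hτ y hx)
        (hp'.other τ hτ y hx')
  · unfold mixRun
    simp only
    split_ifs
    · exact hp.acc
    · exact hp'.acc

/-- The cost of the mixed run. -/
lemma mixRun_cost (Z : Finset ℕ)
    (hmk : ∀ τ < t, kap (M.bl b o p) m (τ + 1) ≠ kap (M.bl b o p) m τ →
      (p (τ + 1)).1 = (p' (τ + 1)).1) :
    M.cost Z t (mixRun M b o m χ p p') =
      ∑ τ ∈ (range t).filter (fun τ => χ (kap (M.bl b o p) m τ) = true), M.stepCost Z p τ +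
      ∑ τ ∈ (range t).filter (fun τ => ¬ χ (kap (M.bl b o p) m τ) = true),
        M.stepCost Z p' τ := by
  unfold LM.cost
  rw [← Finset.sum_filter_add_sum_filter_not (range t)
    (fun τ => χ (kap (M.bl b o p) m τ) = true)]
  congr 1
  · refine Finset.sum_congr rfl fun τ hτ => ?_
    rw [Finset.mem_filter, Finset.mem_range] at hτ
    unfold LM.stepCost
    rw [mixRun_pos_next M b o m p p' χ τ (hmk τ hτ.1), mixRun_pos, if_pos hτ.2, if_pos hτ.2]
  · refine Finset.sum_congr rfl fun τ hτ => ?_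
    rw [Finset.mem_filter, Finset.mem_range] at hτ
    unfold LM.stepCost
    rw [mixRun_pos_next M b o m p p' χ τ (hmk τ hτ.1), mixRun_pos, if_neg hτ.2, if_neg hτ.2]

end Mix

/-- The answers on a mixed input, first side. -/
lemma ans_mix1 [Fintype J] [Fintype B] [Fintype U] [DecidableEq J] [DecidableEq B] [DecidableEq U]
    (z : Inp J B U) (F2 : Finset ((J × U) × B)) (g g' : Inp J B U) (hg2 : g.2 ∈ Gam F2)
    (hg2' : g'.2 ∈ Gam F2) (q : PQ J B U) (h : q.1 = false → src (z * g) q ∉ F2) :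
    ans (z * (g.1, g'.2)) q = ans (z * g) q := by
  symm
  apply ans_eq_of_perm
  by_cases hty : q.1 = true
  · simp only [thePerm, hty, if_true]
    rfl
  · have hty' : q.1 = false := by simpa using hty
    have hsrc := h hty'
    have e1 := mem_Gam.1 hg2 q.2.1.1 q.2.1.2 (srcElt (z * g) q) hsrc
    have e2 := mem_Gam.1 hg2' q.2.1.1 q.2.1.2 (srcElt (z * g) q) hsrc
    have p1 : thePerm (z * g) q = z.2 q.2.1 * g.2 q.2.1 := by
      simp only [thePerm, hty', Bool.false_eq_true, if_false]; rfl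
    have p2 : thePerm (z * (g.1, g'.2)) q = z.2 q.2.1 * g'.2 q.2.1 := by
      simp only [thePerm, hty', Bool.false_eq_true, if_false]; rfl
    rw [p1, p2, Perm.mul_apply, Perm.mul_apply]
    have e1' : g.2 q.2.1 (srcElt (z * g) q) = srcElt (z * g) q := e1
    have e2' : g'.2 q.2.1 (srcElt (z * g) q) = srcElt (z * g) q := e2
    rw [e1', e2']

/-- The answers on a mixed input, second side. -/
lemma ans_mix2 [Fintype J] [Fintype B] [Fintype U] [DecidableEq J] [DecidableEq B] [DecidableEq U]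
    (z : Inp J B U) (F1 : Finset ((J × U) × B)) (g g' : Inp J B U) (hg1 : g.1 ∈ Gam F1)
    (hg1' : g'.1 ∈ Gam F1) (q : PQ J B U) (h : q.1 = true → src (z * g') q ∉ F1) :
    ans (z * (g.1, g'.2)) q = ans (z * g') q := by
  symm
  apply ans_eq_of_perm
  by_cases hty : q.1 = true
  · have hsrc := h hty
    have e1 := mem_Gam.1 hg1 q.2.1.1 q.2.1.2 (srcElt (z * g') q) hsrc
    have e2 := mem_Gam.1 hg1' q.2.1.1 q.2.1.2 (srcElt (z * g') q) hsrc
    have p1 : thePerm (z * g') q = z.1 q.2.1 * g'.1 q.2.1 := by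
      simp only [thePerm, hty, if_true]; rfl
    have p2 : thePerm (z * (g.1, g'.2)) q = z.1 q.2.1 * g.1 q.2.1 := by
      simp only [thePerm, hty, if_true]; rfl
    rw [p1, p2, Perm.mul_apply, Perm.mul_apply]
    have e1' : g.1 q.2.1 (srcElt (z * g') q) = srcElt (z * g') q := e1
    have e2' : g'.1 q.2.1 (srcElt (z * g') q) = srcElt (z * g') q := e2
    rw [e1', e2']
  · have hty' : q.1 = false := by simpa using hty
    simp only [thePerm, hty', Bool.false_eq_true, if_false]
    rfl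

end Basic

end Pool.Agent.HM
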