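import Mathlib
import Pool.Agent.Lib_helper21.HM.Hybrid

/-!
# Transcripts of runs and the number of accepted inputs
-/

namespace Pool.Agent.HM

open Finset Equiv Pool.Agent.TS

section Small

variable {α : Type} [DecidableEq α]

/-- The subsets of `A` with at most `V` elements. -/
def smallSets (A : Finset α) (V : ℕ) : Finset (Finset α) := A.powerset.filter fun s => s.card ≤ V

omit [DecidableEq α] in
lemma mem_smallSets {A : Finset α} {V : ℕ} {s : Finset α} :
    s ∈ smallSets A V ↔ s ⊆ A ∧ s.card ≤ V := by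
  unfold smallSets
  rw [Finset.mem_filter, Finset.mem_powerset]

lemma smallSets_card (A : Finset α) (V : ℕ) : (smallSets A V).card ≤ (A.card + 1) ^ V := by
  induction V with
  | zero =>
    have : smallSets A 0 ⊆ {∅} := by
      intro s hs
      rw [mem_smallSets] at hs
      rw [Finset.mem_singleton]
      exact Finset.card_eq_zero.1 (by omega)
    simpa using Finset.card_le_card this
  | succ V ih =>
    have h1 : smallSets A (V + 1) ⊆ smallSets A V ∪
        (A ×ˢ smallSets A V).image fun p => insert p.1 p.2 := by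
      intro s hs
      rw [mem_smallSets] at hs
      rw [Finset.mem_union, mem_smallSets, Finset.mem_image]
      rcases s.eq_empty_or_nonempty with rfl | ⟨a, ha⟩
      · left; simp
      · right
        refine ⟨(a, s.erase a), ?_, Finset.insert_erase ha⟩
        rw [Finset.mem_product, mem_smallSets]
        refine ⟨hs.1 ha, (Finset.erase_subset _ _).trans hs.1, ?_⟩
        rw [Finset.card_erase_of_mem ha]
        omega
    calc (smallSets A (V + 1)).card ≤ (smallSets A V).card + A.card * (smallSets A V).card := by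
          refine (Finset.card_le_card h1).trans ((Finset.card_union_le _ _).trans ?_)
          refine Nat.add_le_add_left (Finset.card_image_le.trans ?_) _
          rw [Finset.card_product]
      _ = (A.card + 1) * (smallSets A V).card := by ring
      _ ≤ (A.card + 1) * (A.card + 1) ^ V := Nat.mul_le_mul_left _ ih
      _ = _ := by rw [pow_succ]; ring

end Small

section Marks

variable {J B U Q Γ : Type} {D : ℕ}

/-- The times at which a new component starts. -/
def newTimes (β : ℕ → Reg D) (m t : ℕ) : Finset ℕ :=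
  (range (t + 1)).filter fun τ => τ = 0 ∨ kap β m τ ≠ kap β m (τ - 1)

lemma newTimes_card (β : ℕ → Reg D) (m t : ℕ) : (newTimes β m t).card ≤
    ((range t).filter fun τ => β (τ + 1) ≠ β τ).card + ((range t).filter (ev β m)).card + 1 := by
  have h1 : newTimes β m t ⊆ insert 0 (((range t).filter fun τ =>
      kap β m (τ + 1) ≠ kap β m τ).image Nat.succ) := by
    intro τ hτ
    unfold newTimes at hτ
    rw [Finset.mem_filter, Finset.mem_range] at hτ
    rw [Finset.mem_insert, Finset.mem_image]
    rcases Nat.eq_zero_or_pos τ with h0 | h0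
    · left; exact h0
    · right
      obtain ⟨σ, rfl⟩ := Nat.exists_eq_succ_of_ne_zero h0.ne'
      refine ⟨σ, ?_, rfl⟩
      rw [Finset.mem_filter, Finset.mem_range]
      refine ⟨by omega, ?_⟩
      rcases hτ.2 with h | h
      · omega
      · exact h
  refine (Finset.card_le_card h1).trans ((Finset.card_insert_le _ _).trans ?_)
  exact Nat.add_le_add_right (Finset.card_image_le.trans (chg_card β m t)) 1

variable [DecidableEq Q]

/-- The recorded marks: time, state and colour whenever a new component starts. -/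
def marks (M : LM J B U D Q Γ) (b o m t : ℕ) (χ : Reg D × ℕ → Bool) (p : ℕ → Conf D Q Γ) :
    Finset (ℕ × Q × Bool) :=
  (newTimes (M.bl b o p) m t).image fun τ => (τ, (p τ).1, χ (kap (M.bl b o p) m τ))

lemma marks_card (M : LM J B U D Q Γ) (b o m t : ℕ) (χ : Reg D × ℕ → Bool) (p : ℕ → Conf D Q Γ) :
    (marks M b o m t χ p).card ≤
      ((range t).filter fun τ => M.bl b o p (τ + 1) ≠ M.bl b o p τ).card +
      ((range t).filter (ev (M.bl b o p) m)).card + 1 :=
  Finset.card_image_le.trans (newTimes_card _ m t)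

lemma mem_marks_iff {M : LM J B U D Q Γ} {b o m t : ℕ} {χ : Reg D × ℕ → Bool}
    {p : ℕ → Conf D Q Γ} {τ : ℕ} {q : Q} {k : Bool} : (τ, q, k) ∈ marks M b o m t χ p ↔
      τ ∈ newTimes (M.bl b o p) m t ∧ (p τ).1 = q ∧ χ (kap (M.bl b o p) m τ) = k := by
  unfold marks
  rw [Finset.mem_image]
  constructor
  · rintro ⟨σ, hσ, h⟩
    simp only [Prod.mk.injEq] at h
    obtain ⟨rfl, h2, h3⟩ := h
    exact ⟨hσ, h2, h3⟩
  · rintro ⟨h1, h2, h3⟩
    exact ⟨τ, h1, by rw [h2, h3]⟩

/-- Consequences of equal marks. -/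
lemma marks_eq {M : LM J B U D Q Γ} {b o m t : ℕ} {χ χ' : Reg D × ℕ → Bool}
    {p p' : ℕ → Conf D Q Γ} (h : marks M b o m t χ p = marks M b o m t χ' p') :
    (∀ τ ≤ t, M.bl b o p τ = M.bl b o p' τ) ∧
    (∀ τ < t, kap (M.bl b o p) m (τ + 1) ≠ kap (M.bl b o p) m τ →
      (p (τ + 1)).1 = (p' (τ + 1)).1) ∧
    (∀ τ ≤ t, χ (kap (M.bl b o p) m τ) = χ' (kap (M.bl b o p') m τ)) := by
  have hN : ∀ τ, τ ∈ newTimes (M.bl b o p) m t → τ ∈ newTimes (M.bl b o p') m t ∧
      (p' τ).1 = (p τ).1 ∧ χ' (kap (M.bl b o p') m τ) = χ (kap (M.bl b o p) m τ) := by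
    intro τ hτ
    have h1 : (τ, (p τ).1, χ (kap (M.bl b o p) m τ)) ∈ marks M b o m t χ p :=
      mem_marks_iff.2 ⟨hτ, rfl, rfl⟩
    rw [h] at h1
    exact mem_marks_iff.1 h1
  have hN' : ∀ τ, τ ∈ newTimes (M.bl b o p') m t → τ ∈ newTimes (M.bl b o p) m t := by
    intro τ hτ
    have h1 : (τ, (p' τ).1, χ' (kap (M.bl b o p') m τ)) ∈ marks M b o m t χ' p' :=
      mem_marks_iff.2 ⟨hτ, rfl, rfl⟩
    rw [← h] at h1
    exact (mem_marks_iff.1 h1).1
  have hmem : ∀ (β : ℕ → Reg D) τ, τ < t → (τ + 1 ∈ newTimes β m t ↔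
      kap β m (τ + 1) ≠ kap β m τ) := by
    intro β τ hτ
    unfold newTimes
    rw [Finset.mem_filter, Finset.mem_range]
    constructor
    · rintro ⟨_, h1 | h1⟩
      · omega
      · exact h1
    · intro h1
      exact ⟨by omega, Or.inr h1⟩
  have h0 : ∀ (β : ℕ → Reg D), 0 ∈ newTimes β m t := by
    intro β
    unfold newTimes
    rw [Finset.mem_filter, Finset.mem_range]
    exact ⟨by omega, Or.inl rfl⟩
  have hX : ∀ τ < t, kap (M.bl b o p) m (τ + 1) ≠ kap (M.bl b o p) m τ ↔
      kap (M.bl b o p') m (τ + 1) ≠ kap (M.bl b o p') m τ := by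
    intro τ hτ
    rw [← hmem _ τ hτ, ← hmem _ τ hτ]
    exact ⟨fun h1 => (hN _ h1).1, fun h1 => hN' _ h1⟩
  have hst : ∀ τ < t, kap (M.bl b o p) m (τ + 1) ≠ kap (M.bl b o p) m τ →
      (p (τ + 1)).1 = (p' (τ + 1)).1 := by
    intro τ hτ h1
    exact (hN _ ((hmem _ τ hτ).2 h1)).2.1.symm
  have hβ : ∀ τ ≤ t, M.bl b o p τ = M.bl b o p' τ := by
    refine blocks_eq (m := m) ?_ hX ?_
    · unfold LM.bl LM.pos
      rw [(hN 0 (h0 _)).2.1]
    · intro τ hτ h1
      unfold LM.bl LM.pos
      rw [hst τ hτ h1]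
  refine ⟨hβ, hst, ?_⟩
  intro τ
  induction τ with
  | zero =>
    intro _
    exact (hN 0 (h0 _)).2.2.symm
  | succ τ ih =>
    intro hτ
    by_cases h1 : kap (M.bl b o p) m (τ + 1) ≠ kap (M.bl b o p) m τ
    · exact (hN _ ((hmem _ τ (by omega)).2 h1)).2.2.symm
    · have h2 : ¬ kap (M.bl b o p') m (τ + 1) ≠ kap (M.bl b o p') m τ :=
        fun h3 => h1 ((hX τ (by omega)).2 h3)
      push Not at h1 h2
      rw [h1, h2]
      exact ih (by omega)

omit [DecidableEq Q] in
lemma le_cost (M : LM J B U D Q Γ) (Z : Finset ℕ) (p : ℕ → Conf D Q Γ) (t : ℕ) :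
    t ≤ M.cost Z t p := by
  calc t = ∑ _τ ∈ range t, 1 := by simp
    _ ≤ _ := Finset.sum_le_sum fun τ _ => by unfold LM.stepCost; omega

lemma marks_mem [Fintype Q] (M : LM J B U D Q Γ) (b o m : ℕ) {t T : ℕ} (χ : Reg D × ℕ → Bool)
    (p : ℕ → Conf D Q Γ) (hT : t ≤ T) : marks M b o m t χ p ⊆
      range (T + 1) ×ˢ ((Finset.univ : Finset Q) ×ˢ (Finset.univ : Finset Bool)) := by
  rintro ⟨τ, q, k⟩ h
  obtain ⟨h1, h2, h3⟩ := mem_marks_iff.1 h
  have h5 : τ ≤ t := by
    unfold newTimes at h1
    rw [Finset.mem_filter, Finset.mem_range] at h1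
    omega
  rw [Finset.mem_product, Finset.mem_product]
  exact ⟨Finset.mem_range.2 (by omega), Finset.mem_univ _, Finset.mem_univ _⟩

/-- The recorded contents of the block at the ends of the windows. -/
noncomputable def conts (M : LM J B U D Q Γ) (b o m R : ℕ) (p : ℕ → Conf D Q Γ) :
    Fin R → (Fin D → Fin b) → Γ :=
  fun j u => (p (Nat.nth (ev (M.bl b o p) m) j + 1)).2
    (absReg b o (M.bl b o p (Nat.nth (ev (M.bl b o p) m) j)) u)

omit [DecidableEq Q] in
lemma conts_eq {M : LM J B U D Q Γ} {b o m R t : ℕ} (hb : 0 < b) {p p' : ℕ → Conf D Q Γ}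
    (hβ : ∀ τ ≤ t, M.bl b o p τ = M.bl b o p' τ)
    (hR : ((range t).filter (ev (M.bl b o p) m)).card ≤ R)
    (h : conts M b o m R p = conts M b o m R p') :
    ∀ τ < t, ev (M.bl b o p) m τ → ∀ y, blk b o y = M.bl b o p τ →
      (p (τ + 1)).2 y = (p' (τ + 1)).2 y := by
  intro τ hτ hev y hy
  have hev' : ev (M.bl b o p') m τ :=
    (ev_congr (fun σ hσ => hβ σ (by omega))).1 hev
  have hc : Nat.count (ev (M.bl b o p) m) τ = Nat.count (ev (M.bl b o p') m) τ := by
    rw [Nat.count_eq_card_filter_range, Nat.count_eq_card_filter_range]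
    congr 1
    refine Finset.filter_congr fun σ hσ => ?_
    rw [Finset.mem_range] at hσ
    exact ev_congr (fun ρ hρ => hβ ρ (by omega))
  have hlt : Nat.count (ev (M.bl b o p) m) τ < R := by
    have h1 : Nat.count (ev (M.bl b o p) m) (τ + 1) ≤ Nat.count (ev (M.bl b o p) m) t :=
      Nat.count_monotone _ hτ
    rw [Nat.count_succ, if_pos hev] at h1
    rw [← Nat.count_eq_card_filter_range] at hR
    omega
  have h1 := congrFun (congrFun h ⟨_, hlt⟩) (place b o hb y)
  unfold conts at h1
  simp only at h1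
  rw [Nat.nth_count hev] at h1
  rw [hc, Nat.nth_count hev', ← hβ τ hτ.le, ← hy, absReg_place] at h1
  exact h1

end Marks

section Hits

variable {J B U Q Γ : Type} {D : ℕ} [Fintype J] [Fintype B] [Fintype U] [DecidableEq J]
  [DecidableEq B] [DecidableEq U] {α : Type} [DecidableEq α]

/-- The entries of type `ty` read at the times at which `K` has the value `κ`. -/
noncomputable def hitsK (M : LM J B U D Q Γ) (t : ℕ) (z : Inp J B U) (p : ℕ → Conf D Q Γ)
    (K : ℕ → α) (ty : Bool) (κ : α) : Finset ((J × U) × B) := by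
  classical
  exact Finset.univ.filter fun e => ∃ τ < t, K τ = κ ∧ ∃ q, M.askc p τ = some q ∧ q.1 = ty ∧
    src z q = e

lemma mem_hitsK {M : LM J B U D Q Γ} {t : ℕ} {z : Inp J B U} {p : ℕ → Conf D Q Γ}
    {K : ℕ → α} {ty : Bool} {κ : α} {e : (J × U) × B} : e ∈ hitsK M t z p K ty κ ↔
      ∃ τ < t, K τ = κ ∧ ∃ q, M.askc p τ = some q ∧ q.1 = ty ∧ src z q = e := by
  classical
  simp [hitsK]

lemma hitsK_card (M : LM J B U D Q Γ) (t : ℕ) (z : Inp J B U) (p : ℕ → Conf D Q Γ)
    (K : ℕ → α) (κ : α) :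
    (hitsK M t z p K true κ).card + (hitsK M t z p K false κ).card ≤
      ((range t).filter fun τ => K τ = κ).card := by
  classical
  rw [← Finset.card_disjSum]
  have h1 : ∀ ty e, e ∈ hitsK M t z p K ty κ → ∃ τ < t, K τ = κ ∧ ∃ q, M.askc p τ = some q ∧
      q.1 = ty ∧ src z q = e := fun ty e he => mem_hitsK.1 he
  choose! f hf using h1
  refine Finset.card_le_card_of_injOn
    (fun x => Sum.elim (fun e => f true e) (fun e => f false e) x) ?_ ?_
  · rintro (e | e) he
    · have he' : e ∈ hitsK M t z p K true κ := by simpa using he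
      have := hf true e he'
      simp [this.1, this.2.1]
    · have he' : e ∈ hitsK M t z p K false κ := by simpa using he
      have := hf false e he'
      simp [this.1, this.2.1]
  · rintro (e | e) he (e' | e') he' hee
    · have h1 : e ∈ hitsK M t z p K true κ := by simpa using he
      have h2 : e' ∈ hitsK M t z p K true κ := by simpa using he'
      obtain ⟨_, _, q, hq, _, hs⟩ := hf true e h1
      obtain ⟨_, _, q', hq', _, hs'⟩ := hf true e' h2
      simp only [Sum.elim_inl] at hee
      rw [hee, hq'] at hq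
      obtain rfl := Option.some.inj hq
      rw [← hs, ← hs']
    · have h1 : e ∈ hitsK M t z p K true κ := by simpa using he
      have h2 : e' ∈ hitsK M t z p K false κ := by simpa using he'
      obtain ⟨_, _, q, hq, ht, hs⟩ := hf true e h1
      obtain ⟨_, _, q', hq', ht', hs'⟩ := hf false e' h2
      simp only [Sum.elim_inl, Sum.elim_inr] at hee
      rw [hee, hq'] at hq
      obtain rfl := Option.some.inj hq
      rw [ht] at ht'
      exact absurd ht' (by decide)
    · have h1 : e ∈ hitsK M t z p K false κ := by simpa using he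
      have h2 : e' ∈ hitsK M t z p K true κ := by simpa using he'
      obtain ⟨_, _, q, hq, ht, hs⟩ := hf false e h1
      obtain ⟨_, _, q', hq', ht', hs'⟩ := hf true e' h2
      simp only [Sum.elim_inl, Sum.elim_inr] at hee
      rw [hee, hq'] at hq
      obtain rfl := Option.some.inj hq
      rw [ht] at ht'
      exact absurd ht' (by decide)
    · have h1 : e ∈ hitsK M t z p K false κ := by simpa using he
      have h2 : e' ∈ hitsK M t z p K false κ := by simpa using he'
      obtain ⟨_, _, q, hq, _, hs⟩ := hf false e h1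
      obtain ⟨_, _, q', hq', _, hs'⟩ := hf false e' h2
      simp only [Sum.elim_inr] at hee
      rw [hee, hq'] at hq
      obtain rfl := Option.some.inj hq
      rw [← hs, ← hs']

/-- The colouring of the components and the selected entries. -/
lemma exists_colours (M : LM J B U D Q Γ) (t T m : ℕ) (z : Inp J B U) (p : ℕ → Conf D Q Γ)
    (K : ℕ → α) (htT : t ≤ T) (hK : ∀ κ, ((range t).filter fun τ => K τ = κ).card ≤ m)
    (hB : 0 < Fintype.card B) (h : ℝ) (hh : 1 ≤ h)
    (htot : (T : ℝ) ≤ Fintype.card (J × U) * Fintype.card B * Real.logb 2 h)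
    (hpair : (T * m : ℝ) ≤ Fintype.card (J × U) * (Fintype.card B) ^ 2 / (2 * h)) :
    ∃ (χ : α → Bool) (C : Finset (J × U)) (F1 F2 : Finset ((J × U) × B)),
      Regular ⌈(Fintype.card (J × U) : ℝ) / (4 * h)⌉₊ ⌈(Fintype.card B : ℝ) / (4 * h)⌉₊ C F1 ∧
      Regular ⌈(Fintype.card (J × U) : ℝ) / (4 * h)⌉₊ ⌈(Fintype.card B : ℝ) / (4 * h)⌉₊ C F2 ∧
      (∀ e ∈ F1, ∀ κ, e ∈ hitsK M t z p K true κ → χ κ = true) ∧
      (∀ e ∈ F2, ∀ κ, e ∈ hitsK M t z p K false κ → χ κ = false) := by
  classical
  set S := (range t).image K with hS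
  set e := S.equivFin with he
  have hsum : ∑ j : Fin S.card, ((range t).filter fun τ => K τ = (e.symm j : α)).card ≤ T := by
    calc ∑ j : Fin S.card, ((range t).filter fun τ => K τ = (e.symm j : α)).card
        = ∑ x : S, ((range t).filter fun τ => K τ = (x : α)).card :=
          (e.symm.sum_comp fun x : S => ((range t).filter fun τ => K τ = (x : α)).card)
      _ = ∑ x ∈ S, ((range t).filter fun τ => K τ = x).card := by
          rw [Finset.sum_coe_sort S fun x => ((range t).filter fun τ => K τ = x).card]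
      _ = (range t).card := (Finset.card_eq_sum_card_image K (range t)).symm
      _ ≤ T := by rw [Finset.card_range]; exact htT
  obtain ⟨χ, C, F1, F2, h1, h2, h3, h4⟩ := exists_selection
    (fun j : Fin S.card => hitsK M t z p K true (e.symm j : α))
    (fun j : Fin S.card => hitsK M t z p K false (e.symm j : α)) h hh hB
    (by
      refine le_trans ?_ htot
      have h5 : ∑ j : Fin S.card, ((hitsK M t z p K true (e.symm j : α)).card +
          (hitsK M t z p K false (e.symm j : α)).card) ≤ T :=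
        (Finset.sum_le_sum (fun (j : Fin S.card) _ => hitsK_card M t z p K _)).trans hsum
      exact_mod_cast h5)
    (by
      refine le_trans ?_ hpair
      have h5 : ∑ j : Fin S.card, (hitsK M t z p K true (e.symm j : α)).card *
          (hitsK M t z p K false (e.symm j : α)).card ≤ T * m := by
        calc _ ≤ ∑ j : Fin S.card, ((range t).filter fun τ => K τ = (e.symm j : α)).card * m := by
              refine Finset.sum_le_sum fun j _ => ?_
              have h6 := hitsK_card M t z p K (e.symm j : α)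
              have h7 := hK (e.symm j : α)
              exact Nat.mul_le_mul (by omega) (by omega)
          _ ≤ T * m := by
              rw [← Finset.sum_mul]
              exact Nat.mul_le_mul_right _ hsum
      exact_mod_cast h5)
  refine ⟨fun κ => if hκ : κ ∈ S then χ (e ⟨κ, hκ⟩) else true, C, F1, F2, h1, h2, ?_, ?_⟩
  · intro x hx κ hκ
    have hm : κ ∈ S := by
      obtain ⟨τ, hτ, hk, _⟩ := mem_hitsK.1 hκ
      rw [hS, Finset.mem_image]
      exact ⟨τ, Finset.mem_range.2 hτ, hk⟩
    simp only [dif_pos hm]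
    refine h3 x hx _ ?_
    rw [Equiv.symm_apply_apply]
    exact hκ
  · intro x hx κ hκ
    have hm : κ ∈ S := by
      obtain ⟨τ, hτ, hk, _⟩ := mem_hitsK.1 hκ
      rw [hS, Finset.mem_image]
      exact ⟨τ, Finset.mem_range.2 hτ, hk⟩
    simp only [dif_pos hm]
    refine h4 x hx _ ?_
    rw [Equiv.symm_apply_apply]
    exact hκ

end Hits

end Pool.Agent.HM
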