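import Mathlib
import Pool.Agent.Lib_helper21.HM.Count

/-!
# The number of accepted inputs of a machine with a local memory
-/

namespace Pool.Agent.HM

open Finset Equiv Pool.Agent.TS

/-- The number of transcripts. -/
def numData (D T F b V R cQ cG C : ℕ) : ℕ :=
  (T + 1) ^ 3 * b * (T + 2) ^ F * ((T + 1) * (cQ * 2) + 1) ^ V * (cG ^ b ^ D) ^ R * C ^ 2

section Count

variable {J B U Q Γ : Type} {D : ℕ} [Fintype J] [Fintype B] [Fintype U] [DecidableEq J]
  [DecidableEq B] [DecidableEq U] [Fintype Q] [DecidableEq Q] [Fintype Γ]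

/-- Acceptance with cost at most `T` and at most `F` far steps. -/
def Acc (M : LM J B U D Q Γ) (T F : ℕ) (z : Inp J B U) : Prop :=
  ∃ (t : ℕ) (p : ℕ → Conf D Q Γ) (Z : Finset ℕ), M.Run t z p ∧ Z.card ≤ F ∧ M.cost Z t p ≤ T

omit [Fintype Q] [DecidableEq Q] [Fintype Γ] in
/-- The far steps may be assumed to be steps of the run. -/
lemma acc_trim {M : LM J B U D Q Γ} {T F : ℕ} {z : Inp J B U} (h : Acc M T F z) :
    ∃ (t : ℕ) (p : ℕ → Conf D Q Γ) (Z : Finset ℕ), M.Run t z p ∧ Z.card ≤ F ∧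
      M.cost Z t p ≤ T ∧ Z ⊆ range t := by
  obtain ⟨t, p, Z, h1, h2, h3⟩ := h
  refine ⟨t, p, Z ∩ range t, h1, (Finset.card_le_card Finset.inter_subset_left).trans h2, ?_,
    Finset.inter_subset_right⟩
  refine le_trans (le_of_eq ?_) h3
  unfold LM.cost LM.stepCost
  refine Finset.sum_congr rfl fun τ hτ => ?_
  by_cases hZ : τ ∈ Z
  · rw [if_pos hZ, if_pos (Finset.mem_inter.2 ⟨hZ, hτ⟩)]
  · rw [if_neg hZ, if_neg (fun h => hZ (Finset.mem_inter.1 h).1)]

open Classical in
/-- The accepted inputs. -/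
noncomputable def accSet (M : LM J B U D Q Γ) (T F : ℕ) : Finset (Inp J B U) :=
  Finset.univ.filter fun z => Acc M T F z

omit [Fintype Q] [DecidableEq Q] [Fintype Γ] in
lemma mem_accSet {M : LM J B U D Q Γ} {T F : ℕ} {z : Inp J B U} :
    z ∈ accSet M T F ↔ Acc M T F z := by
  classical
  simp [accSet]

/-- The cost of the steps of a colour. -/
def colCost (M : LM J B U D Q Γ) (Z : Finset ℕ) (b o m t : ℕ) (χ : Reg D × ℕ → Bool)
    (p : ℕ → Conf D Q Γ) (k : Bool) : ℕ :=
  ∑ τ ∈ (range t).filter (fun τ => χ (kap (M.bl b o p) m τ) = k), M.stepCost Z p τ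

omit [Fintype Q] [DecidableEq Q] [Fintype Γ] in
lemma colCost_add (M : LM J B U D Q Γ) (Z : Finset ℕ) (b o m t : ℕ) (χ : Reg D × ℕ → Bool)
    (p : ℕ → Conf D Q Γ) :
    colCost M Z b o m t χ p true + colCost M Z b o m t χ p false = M.cost Z t p := by
  unfold colCost LM.cost
  rw [← Finset.sum_filter_add_sum_filter_not (range t)
    (fun τ => χ (kap (M.bl b o p) m τ) = true)]
  congr 1
  refine Finset.sum_congr (Finset.filter_congr fun τ _ => ?_) fun _ _ => rfl
  simp

theorem accept_count (E : B × U → B × U → Prop) (β : ℝ) (hβ : 0 < β)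
    (hmix : ∀ V W : Finset (B × U), (∀ x ∈ V, ∀ y ∈ W, ¬ E x y) →
      (V.card : ℝ) * W.card ≤ (β ^ 2 * (Fintype.card B * Fintype.card U)) ^ 2)
    (hU : 0 < Fintype.card U) (hB : 0 < Fintype.card B) (M : LM J B U D Q Γ)
    (T F b m V R : ℕ) (hb : 0 < b) (hm : 0 < m) (hV : T / b + F + T / m + 1 ≤ V)
    (hR : T / m ≤ R) (h : ℝ) (hh : 1 ≤ h)
    (htot : (T : ℝ) ≤ Fintype.card (J × U) * Fintype.card B * Real.logb 2 h)
    (hpair : (T * m : ℝ) ≤ Fintype.card (J × U) * (Fintype.card B) ^ 2 / (2 * h))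
    (n' d' : ℕ) (hn' : n' = ⌈(Fintype.card (J × U) : ℝ) / (4 * h)⌉₊)
    (hd' : d' = ⌈(Fintype.card B : ℝ) / (4 * h)⌉₊)
    (A0 : ℝ) (hA0 : 0 < A0) (hA01 : A0 ≤ 1)
    (hbig : 2 * β * (Fintype.card J * Fintype.card U * Fintype.card B) ≤
      (n' * d' : ℝ) / 2 * A0)
    (hacc : ∀ z : Inp J B U, Acc M T F z → TFree E z.1 z.2) :
    ((accSet M T F).card : ℝ) ≤ (numData D T F b V R (Fintype.card Q) (Fintype.card Γ)
      ((Fintype.card ((J × U) × B)).choose (n' * d')) : ℝ) *
      (Real.exp ((n' * d' : ℝ) + (n' * d' : ℝ) / 2 * Real.log A0) *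
        Fintype.card (Inp J B U)) := by
  classical
  rcases (accSet M T F).eq_empty_or_nonempty with hemp | ⟨z00, hz00⟩
  · rw [hemp]
    simp only [Finset.card_empty, Nat.cast_zero]
    positivity
  obtain ⟨_, p00, _, _⟩ := mem_accSet.1 hz00
  have : Nonempty (ℕ → Conf D Q Γ) := ⟨p00⟩
  -- data for each accepted input
  have hdata : ∀ z : Inp J B U, Acc M T F z → ∃ (t : ℕ) (p : ℕ → Conf D Q Γ) (o : ℕ)
      (χ : Reg D × ℕ → Bool) (Z : Finset ℕ) (C : Finset (J × U)) (F1 F2 : Finset ((J × U) × B)),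
      M.Run t z p ∧ M.cost Z t p ≤ T ∧ o < b ∧ Z ⊆ range t ∧ Z.card ≤ F ∧
      ((range t).filter fun τ => M.bl b o p (τ + 1) ≠ M.bl b o p τ).card ≤ T / b + F ∧
      Regular n' d' C F1 ∧ Regular n' d' C F2 ∧
      (∀ e ∈ F1, ∀ κ, e ∈ hitsK M t z p (kap (M.bl b o p) m) true κ → χ κ = true) ∧
      (∀ e ∈ F2, ∀ κ, e ∈ hitsK M t z p (kap (M.bl b o p) m) false κ → χ κ = false) := by
    intro z hz
    obtain ⟨t, p, Z, hp, hZ, hc, hZt⟩ := acc_trim hz
    obtain ⟨o, ho, h1⟩ := exists_offset b hb (M.pos p) t Z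
    have h2 : ∑ τ ∈ range t, (if τ ∈ Z then 0 else dist (M.pos p τ) (M.pos p (τ + 1))) ≤ T := by
      refine le_trans ?_ hc
      exact Finset.sum_le_sum fun τ _ => by unfold LM.stepCost; omega
    obtain ⟨χ, C, F1, F2, h3, h4, h5, h6⟩ := exists_colours M t T m z p (kap (M.bl b o p) m)
      ((le_cost M Z p t).trans hc) (fun κ => kap_card _ m hm t κ) hB h hh htot hpair
    subst hn' hd'
    refine ⟨t, p, o, χ, Z, C, F1, F2, hp, hc, ho, hZt, hZ, ?_, h3, h4, h5, h6⟩
    refine (changes_le (M.bl b o p) t Z).trans (Nat.add_le_add ?_ hZ)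
    rw [Nat.le_div_iff_mul_le hb, mul_comm]
    exact h1.trans h2
  choose! ft fp fo fχ fZ fC fF1 fF2 hf using hdata
  have htT : ∀ z, Acc M T F z → ft z ≤ T := by
    intro z hz
    exact (le_cost M (fZ z) (fp z) (ft z)).trans (hf z hz).2.1
  have hev : ∀ z, Acc M T F z →
      ((range (ft z)).filter (ev (M.bl b (fo z) (fp z)) m)).card ≤ T / m := by
    intro z hz
    have h1 := ev_card (M.bl b (fo z) (fp z)) m (ft z)
    rw [Nat.le_div_iff_mul_le hm]
    exact h1.trans (htT z hz)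
  set dat : Inp J B U → ℕ × ℕ × ℕ × ℕ × Finset ℕ × Finset (ℕ × Q × Bool) ×
    (Fin R → (Fin D → Fin b) → Γ) × Finset ((J × U) × B) × Finset ((J × U) × B) :=
    fun z => (ft z, fo z, colCost M (fZ z) b (fo z) m (ft z) (fχ z) (fp z) true,
      colCost M (fZ z) b (fo z) m (ft z) (fχ z) (fp z) false, fZ z,
      marks M b (fo z) m (ft z) (fχ z) (fp z), conts M b (fo z) m R (fp z), fF1 z, fF2 z) with hdat
  set mk : Finset (ℕ × Q × Bool) := range (T + 1) ×ˢ ((Finset.univ : Finset Q) ×ˢ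
    (Finset.univ : Finset Bool)) with hmk
  set tgt : Finset (ℕ × ℕ × ℕ × ℕ × Finset ℕ × Finset (ℕ × Q × Bool) ×
    (Fin R → (Fin D → Fin b) → Γ) × Finset ((J × U) × B) × Finset ((J × U) × B)) :=
    range (T + 1) ×ˢ (range b ×ˢ (range (T + 1) ×ˢ (range (T + 1) ×ˢ
      (smallSets (range (T + 1)) F ×ˢ (smallSets mk V ×ˢ
      (Finset.univ ×ˢ (Finset.powersetCard (n' * d') Finset.univ ×ˢ
        Finset.powersetCard (n' * d') Finset.univ))))))) with htgt
  have hmaps : ∀ z ∈ accSet M T F, dat z ∈ tgt := by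
    intro z hz
    have hz' := mem_accSet.1 hz
    obtain ⟨h1, h2, h3, hZt, hZc, h4, h5, h6, _, _⟩ := hf z hz'
    have h7 := colCost_add M (fZ z) b (fo z) m (ft z) (fχ z) (fp z)
    have h10 := htT z hz'
    simp only [hdat, htgt, Finset.mem_product, Finset.mem_univ, true_and,
      Finset.mem_powersetCard_univ, Finset.mem_range, mem_smallSets]
    refine ⟨by omega, h3, by omega, by omega, ⟨?_, hZc⟩,
      ⟨marks_mem M b (fo z) m (fχ z) (fp z) h10, ?_⟩, h5.card, h6.card⟩
    · intro x hx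
      have := Finset.mem_range.1 (hZt hx)
      exact Finset.mem_range.2 (by omega)
    · have h8 := marks_card M b (fo z) m (ft z) (fχ z) (fp z)
      have h9 := hev z hz'
      omega
  have htgtcard : tgt.card ≤ numData D T F b V R (Fintype.card Q) (Fintype.card Γ)
      ((Fintype.card ((J × U) × B)).choose (n' * d')) := by
    have h1 : mk.card = (T + 1) * (Fintype.card Q * 2) := by
      simp only [hmk, Finset.card_product, Finset.card_range, Finset.card_univ,
        Fintype.card_bool]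
    have h2 := smallSets_card mk V
    have h3 := smallSets_card (range (T + 1)) F
    rw [h1] at h2
    rw [Finset.card_range] at h3
    simp only [htgt, Finset.card_product, Finset.card_range, Finset.card_univ,
      Finset.card_powersetCard, Fintype.card_fun, Fintype.card_fin]
    unfold numData
    calc (T + 1) * (b * ((T + 1) * ((T + 1) * ((smallSets (range (T + 1)) F).card *
          ((smallSets mk V).card *
          ((Fintype.card Γ ^ b ^ D) ^ R * ((Fintype.card ((J × U) × B)).choose (n' * d') *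
            (Fintype.card ((J × U) × B)).choose (n' * d'))))))))
        = (T + 1) ^ 3 * b * (smallSets (range (T + 1)) F).card * (smallSets mk V).card *
          (Fintype.card Γ ^ b ^ D) ^ R *
          (Fintype.card ((J × U) × B)).choose (n' * d') ^ 2 := by ring
      _ ≤ _ := by gcongr
  have hfib : ∀ D0 ∈ tgt, (((accSet M T F).filter fun z => dat z = D0).card : ℝ) ≤
      Real.exp ((n' * d' : ℝ) + (n' * d' : ℝ) / 2 * Real.log A0) *
        Fintype.card (Inp J B U) := by
    intro D0 _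
    rcases ((accSet M T F).filter fun z => dat z = D0).eq_empty_or_nonempty with he | hne
    · rw [he]; simp only [Finset.card_empty, Nat.cast_zero]; positivity
    obtain ⟨z0, hz0⟩ := hne
    rw [Finset.mem_filter] at hz0
    have hz0' := hf z0 (mem_accSet.1 hz0.1)
    obtain ⟨F1, hF1⟩ : ∃ F1, F1 = fF1 z0 := ⟨_, rfl⟩
    obtain ⟨F2, hF2⟩ : ∃ F2, F2 = fF2 z0 := ⟨_, rfl⟩
    have hreg1 : Regular n' d' (fC z0) F1 := by rw [hF1]; exact hz0'.2.2.2.2.2.2.1
    have hreg2 : Regular n' d' (fC z0) F2 := by rw [hF2]; exact hz0'.2.2.2.2.2.2.2.1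
    apply orbit_bound _ F1 F2
    intro z
    set P := (Gam F1 ×ˢ Gam F2).filter fun g : Inp J B U =>
      z * g ∈ (accSet M T F).filter fun z => dat z = D0 with hP
    set S1 : Finset (J × B → Perm U) := P.image Prod.fst with hS1
    set S2 : Finset (J × B → Perm U) := P.image Prod.snd with hS2
    have hPle : (P.card : ℝ) ≤ (S1.card : ℝ) * S2.card := by
      have : P ⊆ S1 ×ˢ S2 := by
        intro g hg
        rw [Finset.mem_product]
        exact ⟨Finset.mem_image_of_mem _ hg, Finset.mem_image_of_mem _ hg⟩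
      have := Finset.card_le_card this
      rw [Finset.card_product] at this
      exact_mod_cast this
    refine hPle.trans ?_
    refine rect_small E β hβ hmix z.1 z.2 n' d' (fC z0) F1 F2 hreg1 hreg2 S1 S2 ?_ ?_ ?_ A0 hA0
      hA01 hbig hU
    · intro g1 hg1
      rw [hS1, Finset.mem_image] at hg1
      obtain ⟨g, hg, rfl⟩ := hg1
      rw [hP, Finset.mem_filter, Finset.mem_product] at hg
      exact hg.1.1
    · intro g2 hg2
      rw [hS2, Finset.mem_image] at hg2
      obtain ⟨g, hg, rfl⟩ := hg2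
      rw [hP, Finset.mem_filter, Finset.mem_product] at hg
      exact hg.1.2
    · intro g1 hg1 g2 hg2
      rw [hS1, Finset.mem_image] at hg1
      rw [hS2, Finset.mem_image] at hg2
      obtain ⟨g, hg, rfl⟩ := hg1
      obtain ⟨g', hg', rfl⟩ := hg2
      rw [hP, Finset.mem_filter, Finset.mem_product, Finset.mem_filter] at hg hg'
      obtain ⟨hgG, hgA, hgD⟩ := hg
      obtain ⟨hgG', hgA', hgD'⟩ := hg'
      obtain ⟨r1, r2, r3, r4, r5, _, _, _, r7, r8⟩ := hf (z * g) (mem_accSet.1 hgA)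
      obtain ⟨s1, s2, s3, s4, _, _, _, _, s7, s8⟩ := hf (z * g') (mem_accSet.1 hgA')
      have hevg := hev (z * g) (mem_accSet.1 hgA)
      have hD1 := hgD.trans hgD'.symm
      have hD2 := hgD.trans hz0.2.symm
      have hD3 := hgD'.trans hz0.2.symm
      simp only [hdat, Prod.mk.injEq] at hD1 hD2 hD3
      obtain ⟨e1, e2, e3, e4, e0, e5, e6, _, _⟩ := hD1
      have f1 : fF1 (z * g) = F1 := by rw [hF1]; exact hD2.2.2.2.2.2.2.2.1
      have f2 : fF2 (z * g) = F2 := by rw [hF2]; exact hD2.2.2.2.2.2.2.2.2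
      have f1' : fF1 (z * g') = F1 := by rw [hF1]; exact hD3.2.2.2.2.2.2.2.1
      have f2' : fF2 (z * g') = F2 := by rw [hF2]; exact hD3.2.2.2.2.2.2.2.2
      rw [f2] at r8
      rw [f1'] at s7
      clear hD2 hD3 hgD hgD' f1 f2 f1' f2' s8 r7
      -- name the runs
      obtain ⟨t, ht⟩ : ∃ t, t = ft (z * g) := ⟨_, rfl⟩
      obtain ⟨o, ho⟩ : ∃ o, o = fo (z * g) := ⟨_, rfl⟩
      obtain ⟨Z, hZ⟩ : ∃ Z, Z = fZ (z * g) := ⟨_, rfl⟩
      rw [← ht] at e1
      rw [← ho] at e2
      rw [← hZ] at e0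
      clear s3 s4 r3 r4
      simp only [← e1, ← e2, ← e0] at s1 s2 s7 e3 e4 e5 e6
      simp only [← ht, ← ho, ← hZ] at r1 r2 r5 r8 e3 e4 e5 e6 hevg
      obtain ⟨p, hp⟩ : ∃ p, p = fp (z * g) := ⟨_, rfl⟩
      obtain ⟨p', hp'⟩ : ∃ p', p' = fp (z * g') := ⟨_, rfl⟩
      obtain ⟨χ, hχ⟩ : ∃ χ, χ = fχ (z * g) := ⟨_, rfl⟩
      obtain ⟨χ', hχ'⟩ : ∃ χ', χ' = fχ (z * g') := ⟨_, rfl⟩
      simp only [← hp, ← hχ] at e3 e4 e5 e6 r1 r2 r8 hevg
      simp only [← hp', ← hχ'] at e3 e4 e5 e6 s1 s2 s7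
      obtain ⟨m1, m2, m3⟩ := marks_eq e5
      have m4 := conts_eq hb m1 (hevg.trans hR) e6
      have hrun : M.Run t (z * (g.1, g'.2)) (mixRun M b o m χ p p') := by
        refine mixRun_run r1 s1 m1 m2 m4 ?_ ?_
        · intro τ hτ hc
          rcases hq : M.askc p τ with _ | q
          · rfl
          · simp only [Option.map_some]
            congr 1
            refine ans_mix1 z F2 g g' hgG.2 hgG'.2 q ?_
            intro hty hin
            have := r8 _ hin _ (mem_hitsK.2 ⟨τ, hτ, rfl, q, hq, hty, rfl⟩)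
            rw [this] at hc
            exact absurd hc (by decide)
        · intro τ hτ hc
          rcases hq : M.askc p' τ with _ | q
          · rfl
          · simp only [Option.map_some]
            congr 1
            refine ans_mix2 z F1 g g' hgG.1 hgG'.1 q ?_
            intro hty hin
            have := s7 _ hin _ (mem_hitsK.2 ⟨τ, hτ, rfl, q, hq, hty, rfl⟩)
            rw [← m3 τ hτ.le] at this
            rw [this] at hc
            exact absurd hc (by decide)
      have hcost : M.cost Z t (mixRun M b o m χ p p') ≤ T := by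
        rw [mixRun_cost Z m2]
        have h1 : ∑ τ ∈ (range t).filter (fun τ => χ (kap (M.bl b o p) m τ) = true),
            M.stepCost Z p τ = colCost M Z b o m t χ p true := rfl
        have h2 : ∑ τ ∈ (range t).filter (fun τ => ¬ χ (kap (M.bl b o p) m τ) = true),
            M.stepCost Z p' τ = colCost M Z b o m t χ' p' false := by
          unfold colCost
          refine Finset.sum_congr (Finset.filter_congr fun τ hτ => ?_) fun _ _ => rfl
          rw [← m3 τ (Finset.mem_range.1 hτ).le]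
          simp
        have h3 := colCost_add M Z b o m t χ' p'
        rw [h1, h2, e3]
        omega
      exact hacc _ ⟨t, _, Z, hrun, r5, hcost⟩
  rw [Finset.card_eq_sum_card_fiberwise hmaps]
  push_cast
  calc _ ≤ ∑ _D0 ∈ tgt, Real.exp ((n' * d' : ℝ) + (n' * d' : ℝ) / 2 * Real.log A0) *
        Fintype.card (Inp J B U) := Finset.sum_le_sum hfib
    _ = (tgt.card : ℝ) * (Real.exp ((n' * d' : ℝ) + (n' * d' : ℝ) / 2 * Real.log A0) *
        Fintype.card (Inp J B U)) := by rw [Finset.sum_const, nsmul_eq_mul]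
    _ ≤ _ := by
        apply mul_le_mul_of_nonneg_right _ (by positivity)
        exact_mod_cast htgtcard

/-- The inequality forced by a machine accepting exactly the triangle-free inputs. -/
theorem machine_ineq (E : B × U → B × U → Prop) (β : ℝ) (hβ : 0 < β)
    (hmix : ∀ V W : Finset (B × U), (∀ x ∈ V, ∀ y ∈ W, ¬ E x y) →
      (V.card : ℝ) * W.card ≤ (β ^ 2 * (Fintype.card B * Fintype.card U)) ^ 2)
    (De : ℕ)
    (hrow : ∀ (π : J × B → Perm U) κ u, ∀ [DecidablePred (forb E π κ u)],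
      (Finset.univ.filter fun v => forb E π κ u v).card ≤ De)
    (hcol : ∀ (π : J × B → Perm U) κ v, ∀ [DecidablePred fun u => forb E π κ u v],
      (Finset.univ.filter fun u => forb E π κ u v).card ≤ De)
    (h2 : 2 * De ≤ Fintype.card U)
    (hU : 0 < Fintype.card U) (hB : 0 < Fintype.card B) (M : LM J B U D Q Γ)
    (T F b m V R : ℕ) (hb : 0 < b) (hm : 0 < m) (hV : T / b + F + T / m + 1 ≤ V)
    (hR : T / m ≤ R) (h : ℝ) (hh : 1 ≤ h)
    (htot : (T : ℝ) ≤ Fintype.card (J × U) * Fintype.card B * Real.logb 2 h)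
    (hpair : (T * m : ℝ) ≤ Fintype.card (J × U) * (Fintype.card B) ^ 2 / (2 * h))
    (n' d' : ℕ) (hn' : n' = ⌈(Fintype.card (J × U) : ℝ) / (4 * h)⌉₊)
    (hd' : d' = ⌈(Fintype.card B : ℝ) / (4 * h)⌉₊)
    (A0 : ℝ) (hA0 : 0 < A0) (hA01 : A0 ≤ 1)
    (hbig : 2 * β * (Fintype.card J * Fintype.card U * Fintype.card B) ≤
      (n' * d' : ℝ) / 2 * A0)
    (hacc : ∀ z : Inp J B U, Acc M T F z ↔ TFree E z.1 z.2) :
    (1 : ℝ) ≤ (Fintype.card U : ℝ) ^ (2 * De * Fintype.card (J × B)) *
      ((numData D T F b V R (Fintype.card Q) (Fintype.card Γ)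
      ((Fintype.card ((J × U) × B)).choose (n' * d')) : ℝ) *
      Real.exp ((n' * d' : ℝ) + (n' * d' : ℝ) / 2 * Real.log A0)) := by
  classical
  have h3 := accept_count E β hβ hmix hU hB M T F b m V R hb hm hV hR h hh htot hpair n' d' hn'
    hd' A0 hA0 hA01 hbig (fun z hz => (hacc z).1 hz)
  have h4 : tfSet J E ⊆ accSet M T F := by
    intro z hz
    rw [mem_tfSet] at hz
    exact mem_accSet.2 ((hacc z).2 hz)
  have h5 : ((tfSet J E).card : ℝ) ≤ (accSet M T F).card := by
    exact_mod_cast Finset.card_le_card h4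
  have h6 : (Fintype.card (Inp J B U) : ℝ) ≤
      (Fintype.card U : ℝ) ^ (2 * De * Fintype.card (J × B)) * (tfSet J E).card := by
    exact_mod_cast tf_count E De hrow hcol h2
  have hI : (0 : ℝ) < Fintype.card (Inp J B U) := by exact_mod_cast Fintype.card_pos
  set X : ℝ := (numData D T F b V R (Fintype.card Q) (Fintype.card Γ)
      ((Fintype.card ((J × U) × B)).choose (n' * d')) : ℝ) with hX
  have h7 : (Fintype.card (Inp J B U) : ℝ) * 1 ≤ Fintype.card (Inp J B U) *
      ((Fintype.card U : ℝ) ^ (2 * De * Fintype.card (J × B)) *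
        (X * Real.exp ((n' * d' : ℝ) + (n' * d' : ℝ) / 2 * Real.log A0))) := by
    calc (Fintype.card (Inp J B U) : ℝ) * 1 = Fintype.card (Inp J B U) := mul_one _
      _ ≤ _ := h6
      _ ≤ (Fintype.card U : ℝ) ^ (2 * De * Fintype.card (J × B)) *
          (X * (Real.exp ((n' * d' : ℝ) + (n' * d' : ℝ) / 2 * Real.log A0) *
            Fintype.card (Inp J B U))) :=
          mul_le_mul_of_nonneg_left (h5.trans h3) (by positivity)
      _ = _ := by ring
  exact le_of_mul_le_mul_left h7 hI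

end Count

end Pool.Agent.HM
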