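import Mathlib
import Pool.Agent.Lib_helper21.TS2.Num
import Pool.Agent.Lib_helper21.HM.Core

/-!
# The finite form of the lower bound for machines with a local memory
-/

namespace Pool.Agent.HM

open Finset Equiv Pool.Agent.TS Pool.Agent.TS2

lemma exp_four_ge : (54 : ℝ) ≤ Real.exp 4 := by
  have h4 : Real.exp 4 = Real.exp 1 ^ 4 := by rw [← Real.exp_nat_mul]; norm_num
  rw [h4]
  have h1 : (2.718 : ℝ) ≤ Real.exp 1 := by
    have := Real.exp_one_gt_d9; linarith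
  calc (54 : ℝ) ≤ 2.718 ^ 4 := by norm_num
    _ ≤ Real.exp 1 ^ 4 := pow_le_pow_left₀ (by norm_num) h1 4

lemma three_mul_four_pow_le (S : ℕ) (hS : 1 ≤ S) : 3 * (4 : ℝ) ^ S ≤ Real.exp (4 * S) := by
  have h1 : Real.exp (4 * S) = Real.exp 4 ^ S := by
    rw [← Real.exp_nat_mul]; congr 1; ring
  rw [h1]
  obtain ⟨k, rfl⟩ := Nat.exists_eq_succ_of_ne_zero (by omega : S ≠ 0)
  rw [Nat.succ_eq_add_one, pow_succ, pow_succ]
  have h2 := exp_four_ge
  have h3 : (4 : ℝ) ^ k ≤ Real.exp 4 ^ k := pow_le_pow_left₀ (by norm_num) (by linarith) k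
  have h4 : (0 : ℝ) < 4 ^ k := by positivity
  nlinarith

lemma card_le_exp {c : ℕ} {x : ℝ} (h : Real.log c ≤ x) : (c : ℝ) ≤ Real.exp x := by
  rcases Nat.eq_zero_or_pos c with h0 | h0
  · rw [h0]; simp only [Nat.cast_zero]; exact (Real.exp_pos _).le
  · have h1 : (0 : ℝ) < c := by exact_mod_cast h0
    rw [← Real.exp_log h1]
    exact Real.exp_le_exp.2 h

lemma aux_T {T h y : ℝ} (hT : T ≤ h * y) (h1 : h ≤ y) (hy : 1 ≤ y) :
    T + 1 ≤ 2 * y ^ 2 ∧ T + 2 ≤ 3 * y ^ 2 := by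
  have h2 : h * y ≤ y * y := mul_le_mul_of_nonneg_right h1 (by linarith)
  have h3 : (1 : ℝ) ≤ y ^ 2 := one_le_pow₀ hy
  constructor <;> nlinarith

lemma aux_big {c x : ℝ} (hc : 1 ≤ c) (hx : 1 ≤ x) : 1 ≤ c * x := by nlinarith

/-- The number of possible marks. -/
lemma marks_bound (T S cQ : ℕ) (hS : 1 ≤ S) (hQ : Real.log cQ ≤ S)
    (hT : (T + 2 : ℝ) ≤ Real.exp (4 * S)) :
    (((T + 1) * (cQ * 2) + 1 : ℕ) : ℝ) ≤ Real.exp (8 * S) := by
  have hS' : (1 : ℝ) ≤ S := by exact_mod_cast hS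
  have h1 := card_le_exp hQ
  have h2 : (T : ℝ) + 1 ≤ Real.exp (4 * S) := by linarith
  have h4 : (3 : ℝ) ≤ Real.exp (2 * S) := by
    have h5 := Real.add_one_le_exp (2 * (S : ℝ))
    linarith
  have h6 : (1 : ℝ) ≤ Real.exp (4 * S + S) := by
    rw [← Real.exp_zero]
    exact Real.exp_le_exp.2 (by positivity)
  push_cast
  calc ((T : ℝ) + 1) * (cQ * 2) + 1
      ≤ Real.exp (4 * S) * (Real.exp S * 2) + 1 := by gcongr
    _ = Real.exp (4 * S + S) * 2 + 1 := by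
        rw [Real.exp_add]; ring
    _ ≤ Real.exp (4 * S + S) * 3 := by linarith
    _ ≤ Real.exp (4 * S + S) * Real.exp (2 * S) :=
        mul_le_mul_of_nonneg_left h4 (Real.exp_pos _).le
    _ = Real.exp (4 * S + S + 2 * S) := by rw [← Real.exp_add]
    _ ≤ Real.exp (8 * S) := by
        apply Real.exp_le_exp.2
        linarith

set_option maxHeartbeats 4000000 in
theorem no_machine (D t d w De h S g F b m : ℕ) (hD : 1 ≤ D) (ht : 0 < t) (hh : 1 ≤ h)
    (hDe : 1 ≤ De) (hS : 1 ≤ S) (hg : 1 ≤ g) (hb : b = 2 ^ 14 * h ^ 3 * S)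
    (hm : m = 512 * h ^ 3 * b ^ D * g) (hd : d = 2 * h ^ 2 * m)
    (hw : (256 * De * h ^ 2) ^ 2 ≤ w) (hyS : t * d * w ≤ 2 ^ S)
    (hF : 2 ^ 13 * h ^ 2 * (S * F) ≤ t * d * w)
    {Q Γ : Type} [Fintype Q] [DecidableEq Q] [Fintype Γ]
    (E : Fin d × Fin w → Fin d × Fin w → Prop)
    (hmix : ∀ V W : Finset (Fin d × Fin w), (∀ x ∈ V, ∀ y ∈ W, ¬ E x y) →
      (V.card : ℝ) * W.card ≤ (bet h ^ 2 * (d * w)) ^ 2)
    (hrow : ∀ (π : Fin t × Fin d → Perm (Fin w)) κ u, ∀ [DecidablePred (forb E π κ u)],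
      (Finset.univ.filter fun v => forb E π κ u v).card ≤ De)
    (hcol : ∀ (π : Fin t × Fin d → Perm (Fin w)) κ v, ∀ [DecidablePred fun u => forb E π κ u v],
      (Finset.univ.filter fun u => forb E π κ u v).card ≤ De)
    (M : LM (Fin t) (Fin d) (Fin w) D Q Γ) (T : ℕ)
    (hT : (T : ℝ) ≤ (t * d * w) * Real.logb 2 h)
    (hQ : Real.log (Fintype.card Q) ≤ S) (hG : Real.log (Fintype.card Γ) ≤ g)
    (hacc : ∀ z : Inp (Fin t) (Fin d) (Fin w), Acc M T F z ↔ TFree E z.1 z.2) : False := by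
  classical
  have hh' : (1 : ℝ) ≤ h := by exact_mod_cast hh
  have hh0 : (0 : ℝ) < h := by linarith
  have htR : (1 : ℝ) ≤ t := by exact_mod_cast ht
  have ht0 : (0 : ℝ) < t := by linarith
  have hSR : (1 : ℝ) ≤ S := by exact_mod_cast hS
  have hgR : (1 : ℝ) ≤ g := by exact_mod_cast hg
  have hDR : (1 : ℝ) ≤ De := by exact_mod_cast hDe
  have hh2 : (1 : ℝ) ≤ (h : ℝ) ^ 2 := one_le_pow₀ hh'
  have hb0 : 0 < b := by rw [hb]; positivity
  have hbR0 : (0 : ℝ) < b := by exact_mod_cast hb0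
  have hm0 : 0 < m := by rw [hm]; positivity
  have hmR0 : (0 : ℝ) < m := by exact_mod_cast hm0
  have hbm : b ≤ m := by
    rw [hm]
    calc b ≤ b ^ D := Nat.le_self_pow (by omega) b
      _ ≤ 512 * h ^ 3 * b ^ D := Nat.le_mul_of_pos_left _ (by positivity)
      _ ≤ 512 * h ^ 3 * b ^ D * g := Nat.le_mul_of_pos_right _ hg
  have hdR : (d : ℝ) = 2 * h ^ 2 * m := by rw [hd]; push_cast; ring
  have hd0 : (0 : ℝ) < d := by rw [hdR]; positivity
  have hdN : 0 < d := by exact_mod_cast hd0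
  have hwR : (256 * (De : ℝ) * h ^ 2) ^ 2 ≤ w := by exact_mod_cast hw
  have hw256 : (256 : ℝ) ≤ 256 * (De : ℝ) * h ^ 2 := aux256 hDR hh2
  have hw1 : (256 : ℝ) ^ 2 ≤ w := (pow_le_pow_left₀ (by norm_num) hw256 2).trans hwR
  have hw0 : (0 : ℝ) < w := by linarith
  have hwN : 0 < w := by exact_mod_cast hw0
  obtain ⟨y, hy⟩ : ∃ y : ℝ, y = t * d * w := ⟨_, rfl⟩
  have hy0 : 0 < y := by rw [hy]; positivity
  rw [← hy] at hT
  -- size of y
  have hw4 : (2 : ℝ) ^ 16 * h ^ 4 ≤ w := by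
    refine le_trans ?_ hwR
    have h3 : 256 * (h : ℝ) ^ 2 * 1 ≤ 256 * (h : ℝ) ^ 2 * De :=
      mul_le_mul_of_nonneg_left hDR (by positivity)
    calc (2 : ℝ) ^ 16 * h ^ 4 = (256 * h ^ 2) ^ 2 := by ring
      _ ≤ _ := pow_le_pow_left₀ (by positivity) (by linarith) 2
  have hmge : (2 : ℝ) ^ 9 * h ^ 3 * b ≤ m := by
    have h1 : 2 ^ 9 * h ^ 3 * b ≤ m := by
      rw [hm]
      calc 2 ^ 9 * h ^ 3 * b ≤ 512 * h ^ 3 * b ^ D :=
            Nat.mul_le_mul (le_of_eq (by norm_num)) (Nat.le_self_pow (by omega) b)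
        _ ≤ _ := Nat.le_mul_of_pos_right _ hg
    exact_mod_cast h1
  have hyb : (2 : ℝ) ^ 26 * h ^ 9 * b ≤ y := by
    have h1 : (d : ℝ) * w ≤ y := by
      rw [hy]
      calc (d : ℝ) * w = 1 * (d * w) := by ring
        _ ≤ t * (d * w) := mul_le_mul_of_nonneg_right htR (by positivity)
        _ = t * d * w := by ring
    refine le_trans ?_ h1
    calc (2 : ℝ) ^ 26 * h ^ 9 * b =
          (2 * (h : ℝ) ^ 2 * (2 ^ 9 * (h : ℝ) ^ 3 * b)) * (2 ^ 16 * (h : ℝ) ^ 4) := by ring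
      _ ≤ (2 * (h : ℝ) ^ 2 * m) * w := by gcongr
      _ = d * w := by rw [hdR]
  have hb1 : (1 : ℝ) ≤ b := by exact_mod_cast hb0
  have hh9 : (1 : ℝ) ≤ (h : ℝ) ^ 9 := one_le_pow₀ hh'
  have hbley : (b : ℝ) ≤ y := by
    refine le_trans ?_ hyb
    have : (1 : ℝ) ≤ 2 ^ 26 * (h : ℝ) ^ 9 := aux_big (by norm_num) hh9
    calc (b : ℝ) = 1 * b := by ring
      _ ≤ 2 ^ 26 * (h : ℝ) ^ 9 * b := mul_le_mul_of_nonneg_right this hbR0.le
  have hhley : (h : ℝ) ≤ y := by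
    refine le_trans ?_ hyb
    have h1 : (h : ℝ) ≤ h ^ 9 := le_self_pow₀ hh' (by norm_num)
    calc (h : ℝ) ≤ h ^ 9 := h1
      _ ≤ 2 ^ 26 * (h : ℝ) ^ 9 := le_mul_of_one_le_left (by positivity) (by norm_num)
      _ ≤ 2 ^ 26 * (h : ℝ) ^ 9 * b := le_mul_of_one_le_right (by positivity) hb1
  have hy26 : (2 : ℝ) ^ 26 * h ^ 4 ≤ y := by
    refine le_trans ?_ hyb
    have h1 : (h : ℝ) ^ 4 ≤ h ^ 9 := pow_le_pow_right₀ hh' (by norm_num)
    calc (2 : ℝ) ^ 26 * h ^ 4 ≤ 2 ^ 26 * (h : ℝ) ^ 9 := by gcongr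
      _ ≤ 2 ^ 26 * (h : ℝ) ^ 9 * b := le_mul_of_one_le_right (by positivity) hb1
  have hyS' : y ≤ 2 ^ S := by rw [hy]; exact_mod_cast hyS
  -- parameters
  have hβ0 : 0 < bet h := by unfold bet; positivity
  set A0 : ℝ := 64 * h ^ 2 * bet h with hA0
  have hA00 : 0 < A0 := by positivity
  have hA0le : A0 ≤ Real.exp (-8) / (16 * h ^ 2) ^ 4 := by
    rw [le_div_iff₀ (by positivity), hA0, bet, Real.exp_neg]
    have h3 : Real.exp 8 ≤ 2 ^ 13 := by
      have h4 : Real.exp 8 = Real.exp 1 ^ 8 := by rw [← Real.exp_nat_mul]; norm_num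
      rw [h4]
      calc Real.exp 1 ^ 8 ≤ 3 ^ 8 := by
            apply pow_le_pow_left₀ (Real.exp_pos _).le
            have := Real.exp_one_lt_d9
            linarith
        _ ≤ 2 ^ 13 := by norm_num
    have h5 : (2 ^ 13 : ℝ)⁻¹ ≤ (Real.exp 8)⁻¹ := inv_anti₀ (Real.exp_pos _) h3
    refine le_trans (le_of_eq ?_) h5
    field_simp
    norm_num
  have h16 : (0 : ℝ) < 16 * (h : ℝ) ^ 2 := by positivity
  have hlogA0 : Real.log A0 ≤ -(8 + 4 * Real.log (16 * h ^ 2)) := by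
    have h1 := Real.log_le_log hA00 hA0le
    rw [Real.log_div (Real.exp_pos _).ne' (by positivity), Real.log_exp, Real.log_pow] at h1
    push_cast at h1
    linarith
  have hlog16 : 0 ≤ Real.log (16 * (h : ℝ) ^ 2) := Real.log_nonneg (by linarith)
  have hA01 : A0 ≤ 1 := by
    by_contra hcon
    push Not at hcon
    have := Real.log_pos hcon
    linarith
  have cI : Fintype.card (Fin t × Fin w) = t * w := by simp
  have cK : Fintype.card (Fin t × Fin d) = t * d := by simp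
  have cE : Fintype.card ((Fin t × Fin w) × Fin d) = t * w * d := by simp
  obtain ⟨n', hn'⟩ : ∃ n', n' = ⌈(Fintype.card (Fin t × Fin w) : ℝ) / (4 * h)⌉₊ := ⟨_, rfl⟩
  obtain ⟨d', hd'⟩ : ∃ d', d' = ⌈(Fintype.card (Fin d) : ℝ) / (4 * h)⌉₊ := ⟨_, rfl⟩
  have hn'ge : ((t : ℝ) * w) / (4 * h) ≤ n' := by
    have := Nat.le_ceil ((Fintype.card (Fin t × Fin w) : ℝ) / (4 * h))
    rw [← hn', cI] at this
    push_cast at this
    exact this
  have hd'ge : (d : ℝ) / (4 * h) ≤ d' := by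
    have := Nat.le_ceil ((Fintype.card (Fin d) : ℝ) / (4 * h))
    rw [← hd', Fintype.card_fin] at this
    exact this
  obtain ⟨mm, hmdef⟩ : ∃ mm : ℝ, mm = ((n' * d' : ℕ) : ℝ) := ⟨_, rfl⟩
  have hmm : y ≤ (16 * h ^ 2) * mm := by
    have h1 : ((t : ℝ) * w) / (4 * h) * ((d : ℝ) / (4 * h)) ≤ (n' : ℝ) * d' :=
      mul_le_mul hn'ge hd'ge (by positivity) (by positivity)
    have h2 : ((t : ℝ) * w) / (4 * h) * ((d : ℝ) / (4 * h)) = y / (16 * h ^ 2) := by
      rw [hy]; field_simp; ring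
    rw [h2, div_le_iff₀ h16] at h1
    rw [hmdef]
    push_cast
    linarith
  have hm' : (n' : ℝ) * d' = mm := by rw [hmdef]; push_cast; ring
  have hlogb : Real.logb 2 h ≤ h := logb_le_self hh0
  have hT2 : (T : ℝ) ≤ h * y := by
    refine hT.trans ?_
    rw [mul_comm (h : ℝ) y]
    exact mul_le_mul_of_nonneg_left hlogb hy0.le
  have htot : (T : ℝ) ≤ Fintype.card (Fin t × Fin w) * Fintype.card (Fin d) *
      Real.logb 2 h := by
    rw [cI, Fintype.card_fin]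
    push_cast
    calc (T : ℝ) ≤ _ := hT
      _ = _ := by rw [hy]; ring
  have hpair : (T * m : ℝ) ≤ Fintype.card (Fin t × Fin w) *
      (Fintype.card (Fin d)) ^ 2 / (2 * h) := by
    rw [cI, Fintype.card_fin]
    push_cast
    calc (T : ℝ) * m ≤ (h * y) * m := mul_le_mul_of_nonneg_right hT2 hmR0.le
      _ = (t : ℝ) * w * d ^ 2 / (2 * h) := by
          rw [hy, hdR]; field_simp
  have hbig : 2 * bet h * (Fintype.card (Fin t) * Fintype.card (Fin w) *
      Fintype.card (Fin d)) ≤ (n' * d' : ℝ) / 2 * A0 := by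
    rw [Fintype.card_fin, Fintype.card_fin, Fintype.card_fin, hm', hA0]
    calc 2 * bet h * ((t : ℝ) * w * d) = 2 * bet h * y := by rw [hy]; ring
      _ ≤ 2 * bet h * ((16 * h ^ 2) * mm) := mul_le_mul_of_nonneg_left hmm (by positivity)
      _ = _ := by ring
  have h2D : 2 * De ≤ Fintype.card (Fin w) := by
    rw [Fintype.card_fin]
    refine le_trans ?_ hw
    have h1 : 1 ≤ h ^ 2 := Nat.one_le_pow _ _ hh
    have h2 : De ≤ De * h ^ 2 := Nat.le_mul_of_pos_right _ h1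
    have h3 : 2 * De ≤ 256 * De * h ^ 2 := by
      have : 256 * De * h ^ 2 = 256 * (De * h ^ 2) := by ring
      omega
    exact h3.trans (Nat.le_self_pow (by norm_num) _)
  obtain ⟨V, hV⟩ : ∃ V, V = T / b + F + T / m + 1 := ⟨_, rfl⟩
  obtain ⟨R, hR⟩ : ∃ R, R = T / m := ⟨_, rfl⟩
  have key := machine_ineq (Q := Q) E (bet h) hβ0 (by
      intro V W hVW
      rw [Fintype.card_fin, Fintype.card_fin]
      exact hmix V W hVW) De hrow hcol h2D
    (by rw [Fintype.card_fin]; exact hwN) (by rw [Fintype.card_fin]; exact hdN) M T F b m V R hb0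
    hm0 hV.ge hR.ge h hh' htot hpair n' d' hn' hd' A0 hA00 hA01 hbig hacc
  rw [cE, cK, Fintype.card_fin, hm'] at key
  -- bounds of the factors
  have e1 : ((w : ℕ) : ℝ) ^ (2 * De * (t * d)) ≤ Real.exp (y / (64 * h ^ 2)) := by
    have h1 : ((w : ℕ) : ℝ) ^ (2 * De * (t * d)) =
        Real.exp (((2 * De * (t * d) : ℕ) : ℝ) * Real.log w) := by
      rw [Real.exp_nat_mul, Real.exp_log hw0]
    rw [h1]
    apply Real.exp_le_exp.2
    push_cast
    rw [le_div_iff₀ (by positivity)]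
    have h2 := log_le_two_sqrt w hw0
    have h3 : Real.sqrt w * Real.sqrt w = w := Real.mul_self_sqrt hw0.le
    have h4 : 256 * (De : ℝ) * h ^ 2 ≤ Real.sqrt w := Real.le_sqrt_of_sq_le hwR
    calc 2 * (De : ℝ) * (t * d) * Real.log w * (64 * h ^ 2)
        ≤ 2 * (De : ℝ) * (t * d) * (2 * Real.sqrt w) * (64 * h ^ 2) := by gcongr
      _ = (t * d) * (Real.sqrt w * (256 * (De : ℝ) * h ^ 2)) := by ring
      _ ≤ (t * d) * (Real.sqrt w * Real.sqrt w) := by gcongr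
      _ = y := by rw [h3, hy]
  -- the time
  have hT3 : (T : ℝ) + 1 ≤ 2 * y ^ 2 := (aux_T hT2 hhley (hb1.trans hbley)).1
  have hT4 : (T + 2 : ℝ) ≤ Real.exp (4 * S) := by
    have h3 : (T + 2 : ℝ) ≤ 3 * y ^ 2 := (aux_T hT2 hhley (hb1.trans hbley)).2
    have h4 : y ^ 2 ≤ (4 : ℝ) ^ S := by
      calc y ^ 2 ≤ (2 ^ S) ^ 2 := pow_le_pow_left₀ hy0.le hyS' 2
        _ = (4 : ℝ) ^ S := by rw [← pow_mul, mul_comm, pow_mul]; norm_num
    calc (T + 2 : ℝ) ≤ 3 * y ^ 2 := h3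
      _ ≤ 3 * (4 : ℝ) ^ S := by linarith
      _ ≤ _ := three_mul_four_pow_le S hS
  have e2 : ((T : ℝ) + 1) ^ 3 * b ≤ Real.exp (y / (512 * h ^ 2)) := by
    have h1 : ((T : ℝ) + 1) ^ 3 * b ≤ 8 * y ^ 7 := by
      calc ((T : ℝ) + 1) ^ 3 * b ≤ (2 * y ^ 2) ^ 3 * y := by gcongr
        _ = 8 * y ^ 7 := by ring
    have h2 : (8 : ℝ) * y ^ 7 ≤ y ^ 8 := by
      have h3 : (8 : ℝ) ≤ y := by
        refine le_trans ?_ hy26
        have : (1 : ℝ) ≤ (h : ℝ) ^ 4 := one_le_pow₀ hh'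
        calc (8 : ℝ) ≤ 2 ^ 26 * 1 := by norm_num
          _ ≤ 2 ^ 26 * (h : ℝ) ^ 4 := by gcongr
      calc (8 : ℝ) * y ^ 7 ≤ y * y ^ 7 := mul_le_mul_of_nonneg_right h3 (by positivity)
        _ = y ^ 8 := by ring
    have h3 : y ^ 8 = Real.exp (8 * Real.log y) := by
      rw [mul_comm, ← Real.rpow_def_of_pos hy0]
      norm_cast
    refine (h1.trans h2).trans ?_
    rw [h3]
    apply Real.exp_le_exp.2
    rw [le_div_iff₀ (by positivity)]
    have h4 := log_le_two_sqrt y hy0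
    have h5 : Real.sqrt y * Real.sqrt y = y := Real.mul_self_sqrt hy0.le
    have h6 : 2 ^ 13 * (h : ℝ) ^ 2 ≤ Real.sqrt y := by
      apply Real.le_sqrt_of_sq_le
      refine le_trans (le_of_eq ?_) hy26
      ring
    calc 8 * Real.log y * (512 * h ^ 2) ≤ 8 * (2 * Real.sqrt y) * (512 * h ^ 2) := by gcongr
      _ = Real.sqrt y * (2 ^ 13 * h ^ 2) := by ring
      _ ≤ Real.sqrt y * Real.sqrt y := by gcongr
      _ = y := h5
  have hTb : (T : ℝ) / b ≤ h * y / b := div_le_div_of_nonneg_right hT2 hbR0.le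
  have hVle : (V : ℝ) ≤ 3 * (h * y / b) + F := by
    have h1 : ((T / b : ℕ) : ℝ) ≤ h * y / b := Nat.cast_div_le.trans hTb
    have h2 : ((T / m : ℕ) : ℝ) ≤ h * y / b := by
      have h3 : T / m ≤ T / b := Nat.div_le_div_left hbm hb0
      have h4 : ((T / m : ℕ) : ℝ) ≤ ((T / b : ℕ) : ℝ) := by exact_mod_cast h3
      exact h4.trans h1
    have h3 : 1 ≤ h * y / b := by
      rw [le_div_iff₀ hbR0, one_mul]
      calc (b : ℝ) ≤ y := hbley
        _ ≤ h * y := le_mul_of_one_le_left hy0.le hh'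
    rw [hV]
    push_cast
    linarith
  have hbR : (b : ℝ) = 2 ^ 14 * h ^ 3 * S := by rw [hb]; push_cast; ring
  have hF' : 2 ^ 13 * (h : ℝ) ^ 2 * (S * F) ≤ y := by rw [hy]; exact_mod_cast hF
  have hSF : (S : ℝ) * F ≤ y / (512 * h ^ 2) / 16 := by
    rw [div_div, le_div_iff₀ (by positivity)]
    calc (S : ℝ) * F * (512 * h ^ 2 * 16) = 2 ^ 13 * (h : ℝ) ^ 2 * (S * F) := by ring
      _ ≤ y := hF'
  have e3 : ((((T + 1) * (Fintype.card Q * 2) + 1) ^ V : ℕ) : ℝ) ≤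
      Real.exp (2 * (y / (512 * h ^ 2))) := by
    rw [Nat.cast_pow]
    calc ((((T + 1) * (Fintype.card Q * 2) + 1 : ℕ)) : ℝ) ^ V
        ≤ Real.exp (8 * S) ^ V :=
          pow_le_pow_left₀ (by positivity) (marks_bound T S _ hS hQ hT4) V
      _ = Real.exp (V * (8 * S)) := by rw [← Real.exp_nat_mul]
      _ ≤ Real.exp (2 * (y / (512 * h ^ 2))) := by
          apply Real.exp_le_exp.2
          calc (V : ℝ) * (8 * S) ≤ (3 * (h * y / b) + F) * (8 * S) := by gcongr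
            _ = y / (512 * h ^ 2) * (3 / 4) + 8 * (S * F) := by
                rw [hbR]
                field_simp
                ring
            _ ≤ 2 * (y / (512 * h ^ 2)) := by
                have : 0 ≤ y / (512 * h ^ 2) := by positivity
                linarith
  have e0 : ((((T + 2) ^ F : ℕ)) : ℝ) ≤ Real.exp (y / (512 * h ^ 2)) := by
    rw [Nat.cast_pow]
    calc (((T + 2 : ℕ)) : ℝ) ^ F ≤ Real.exp (4 * S) ^ F := by
          apply pow_le_pow_left₀ (by positivity)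
          push_cast
          exact hT4
      _ = Real.exp (F * (4 * S)) := by rw [← Real.exp_nat_mul]
      _ ≤ Real.exp (y / (512 * h ^ 2)) := by
          apply Real.exp_le_exp.2
          calc (F : ℝ) * (4 * S) = 4 * (S * F) := by ring
            _ ≤ y / (512 * h ^ 2) := by
                have : 0 ≤ y / (512 * h ^ 2) := by positivity
                linarith
  have e4 : ((((Fintype.card Γ) ^ b ^ D) ^ R : ℕ) : ℝ) ≤ Real.exp (y / (512 * h ^ 2)) := by
    have h1 := card_le_exp hG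
    have h2 : (R : ℝ) ≤ h * y / m := by
      rw [hR]
      exact Nat.cast_div_le.trans (div_le_div_of_nonneg_right hT2 hmR0.le)
    have hmR : (m : ℝ) = 512 * h ^ 3 * b ^ D * g := by rw [hm]; push_cast; ring
    push_cast
    calc (((Fintype.card Γ : ℕ) : ℝ) ^ b ^ D) ^ R ≤ (Real.exp g ^ b ^ D) ^ R := by gcongr
      _ = Real.exp (R * (b ^ D * g)) := by
          rw [← Real.exp_nat_mul, ← Real.exp_nat_mul]
          push_cast
          ring_nf
      _ ≤ Real.exp (y / (512 * h ^ 2)) := by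
          apply Real.exp_le_exp.2
          calc (R : ℝ) * (b ^ D * g) ≤ h * y / m * (b ^ D * g) := by gcongr
            _ = y / (512 * h ^ 2) := by
                rw [hmR]
                field_simp
  have e5 : ((t * w * d).choose (n' * d') : ℝ) ^ 2 ≤
      Real.exp (2 * (mm + mm * Real.log (16 * h ^ 2))) := by
    have h1 := choose_le_exp (t * w * d) (n' * d') (16 * h ^ 2) h16
      (by rw [← hmdef]; push_cast; refine le_trans (le_of_eq ?_) hmm; rw [hy]; ring)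
    rw [← hmdef] at h1
    have h2 : Real.exp (2 * (mm + mm * Real.log (16 * h ^ 2))) =
        (Real.exp (mm + mm * Real.log (16 * h ^ 2))) ^ 2 := by
      rw [← Real.exp_nat_mul]; norm_num
    rw [h2]
    exact pow_le_pow_left₀ (by positivity) h1 2
  have hmm0 : 0 < mm := by
    by_contra hcon
    push Not at hcon
    have h1 : (16 * (h : ℝ) ^ 2) * mm ≤ 0 := mul_nonpos_of_nonneg_of_nonpos h16.le hcon
    linarith
  have e6 : Real.exp (mm + mm / 2 * Real.log A0) ≤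
      Real.exp (mm + mm / 2 * (-(8 + 4 * Real.log (16 * h ^ 2)))) := by
    apply Real.exp_le_exp.2
    have := mul_le_mul_of_nonneg_left hlogA0 (show 0 ≤ mm / 2 by positivity)
    linarith
  have hnum : (numData D T F b V R (Fintype.card Q) (Fintype.card Γ)
      ((t * w * d).choose (n' * d')) : ℝ) ≤ Real.exp (y / (512 * h ^ 2)) *
      Real.exp (y / (512 * h ^ 2)) * Real.exp (2 * (y / (512 * h ^ 2))) *
      Real.exp (y / (512 * h ^ 2)) *
      Real.exp (2 * (mm + mm * Real.log (16 * h ^ 2))) := by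
    unfold numData
    have h1 : (((T + 1) ^ 3 * b * (T + 2) ^ F * ((T + 1) * (Fintype.card Q * 2) + 1) ^ V *
        (Fintype.card Γ ^ b ^ D) ^ R * (t * w * d).choose (n' * d') ^ 2 : ℕ) : ℝ) =
        (((T : ℝ) + 1) ^ 3 * b) * ((((T + 2) ^ F : ℕ)) : ℝ) *
        ((((T + 1) * (Fintype.card Q * 2) + 1) ^ V : ℕ) : ℝ) *
        ((((Fintype.card Γ) ^ b ^ D) ^ R : ℕ) : ℝ) * ((t * w * d).choose (n' * d') : ℝ) ^ 2 := by
      push_cast
      ring
    rw [h1]
    gcongr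
  have hprod : ((w : ℕ) : ℝ) ^ (2 * De * (t * d)) *
      ((numData D T F b V R (Fintype.card Q) (Fintype.card Γ)
      ((t * w * d).choose (n' * d')) : ℝ) * Real.exp (mm + mm / 2 * Real.log A0)) ≤
      Real.exp (y / (64 * h ^ 2)) * ((Real.exp (y / (512 * h ^ 2)) *
      Real.exp (y / (512 * h ^ 2)) * Real.exp (2 * (y / (512 * h ^ 2))) *
      Real.exp (y / (512 * h ^ 2)) *
      Real.exp (2 * (mm + mm * Real.log (16 * h ^ 2)))) *
        Real.exp (mm + mm / 2 * (-(8 + 4 * Real.log (16 * h ^ 2))))) := by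
    gcongr
  have hfin := key.trans hprod
  rw [← Real.exp_add, ← Real.exp_add, ← Real.exp_add, ← Real.exp_add, ← Real.exp_add,
    ← Real.exp_add, Real.one_le_exp_iff] at hfin
  -- the exponent is negative
  have hexp : y / (64 * h ^ 2) + (y / (512 * h ^ 2) + y / (512 * h ^ 2) +
      2 * (y / (512 * h ^ 2)) + y / (512 * h ^ 2) +
      2 * (mm + mm * Real.log (16 * h ^ 2)) +
      (mm + mm / 2 * (-(8 + 4 * Real.log (16 * h ^ 2))))) =
      y / (64 * h ^ 2) + 5 * (y / (512 * h ^ 2)) - mm := by ring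
  rw [hexp] at hfin
  have hm2 : y / (16 * h ^ 2) ≤ mm := by
    rw [div_le_iff₀ h16]; linarith
  have hfin2 : y / (64 * h ^ 2) + 5 * (y / (512 * h ^ 2)) < y / (16 * h ^ 2) := by
    have h1 : (0 : ℝ) < y / (512 * h ^ 2) := by positivity
    have h2 : y / (64 * h ^ 2) = 8 * (y / (512 * h ^ 2)) := by
      field_simp; norm_num
    have h3 : y / (16 * h ^ 2) = 32 * (y / (512 * h ^ 2)) := by
      field_simp; norm_num
    rw [h2, h3]
    linarith
  linarith

end Pool.Agent.HM
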