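import Mathlib
import Pool.Agent.Lib_helper21.TS2.Final
import Pool.Agent.Lib_helper21.HM.Num

/-!
# The trade-off for machines with an unbounded memory with locality
-/

namespace Pool.Agent.HM

open Finset Equiv Pool.Agent.TS Pool.Agent.TS2

section Conv

variable {J B U : Type} {t d w pad D : ℕ} (eJ : J ≃ Fin t) (eB : B ≃ Fin d) (eU : U ≃ Fin w)

/-- The machine on inputs induced by a machine on graphs. -/
def toLM {Q Γ : Type} (E : B × U → B × U → Prop)
    (M : Machine (t * w + (d * w + (d * w + pad))) D Q Γ) : LM J B U D Q Γ where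
  start x := x ∈ M.start
  init := M.init
  acc x := x ∈ M.acc
  addr := M.addr
  ask i q γ := tr eJ eB eU pad (M.ask i q γ)
  step i q γ a q' γ' := ∃ z : Inp J B U, (tr eJ eB eU pad (M.ask i q γ)).map (ans z) = a ∧
    (q', γ') ∈ M.next i q γ (answer (theGraph eJ eB eU pad E z) (M.ask i q γ))

lemma accepts_iff {Q Γ : Type} (E : B × U → B × U → Prop)
    (M : Machine (t * w + (d * w + (d * w + pad))) D Q Γ) (T F : ℕ) (z : Inp J B U) :
    M.Accepts T F (theGraph eJ eB eU pad E z) ↔ Acc (toLM eJ eB eU E M) T F z := by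
  unfold Machine.Accepts Acc
  constructor
  · rintro ⟨n, q, c, Z, ⟨h1, h2, h3⟩, h4, h5, h6⟩
    refine ⟨n, fun i => (q i, c i), Z, ⟨h1, h2, ?_, ?_, h4⟩, h5, h6⟩
    · intro i hi
      exact ⟨z, rfl, (h3 i hi).1⟩
    · intro i hi
      exact (h3 i hi).2
  · rintro ⟨n, p, Z, hR, h5, h6⟩
    refine ⟨n, fun i => (p i).1, fun i => (p i).2, Z, ⟨hR.start, hR.c0, ?_⟩, hR.acc, h5, h6⟩
    intro i hi
    refine ⟨?_, hR.other i hi⟩
    obtain ⟨z', h1, h2⟩ := hR.step i hi
    have h3 := answer_eq eJ eB eU E z z' (M.ask i (p i).1 ((p i).2 (M.addr i (p i).1))) h1.symm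
    change ((p (i + 1)).1, (p (i + 1)).2 (M.addr i (p i).1)) ∈
      M.next i (p i).1 ((p i).2 (M.addr i (p i).1))
        (answer (theGraph eJ eB eU pad E z) (M.ask i (p i).1 ((p i).2 (M.addr i (p i).1))))
    rw [h3]
    exact h2

end Conv

/-- The lower bound for given parameters. -/
theorem bound_params (D t d w De h S g F b m : ℕ) (hD : 1 ≤ D) (ht : 0 < t) (hh : 1 ≤ h)
    (hDe : 1 ≤ De) (hS : 1 ≤ S) (hg : 1 ≤ g) (hb : b = 2 ^ 14 * h ^ 3 * S)
    (hm : m = 512 * h ^ 3 * b ^ D * g) (hd : d = 2 * h ^ 2 * m)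
    (hw : (256 * De ^ 2 * h ^ 2) ^ 2 ≤ w) (hyS : t * d * w ≤ 2 ^ S)
    (hF : 2 ^ 13 * h ^ 2 * (S * F) ≤ t * d * w)
    (hβ : Real.log 4 < De * (bet h ^ 4 / 2) ^ 2)
    (htD : De ^ 2 ≤ t) (s : ℕ) (hs : 6 * (t * d * w) ≤ s) :
    ∃ (n : ℕ) (δ : Fin n → ℕ), 2 * n + ∑ v, δ v = 2 * s ∧
      ∀ (Q Γ : Type) [Fintype Q] [Fintype Γ] (M : Machine n D Q Γ) (T : ℕ),
        Real.log (Fintype.card Q) ≤ S → Real.log (Fintype.card Γ) ≤ g →
        (∀ G : SimpleGraph (Fin n), (∀ v, (adjList G v).length = δ v) →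
          (M.Accepts T F G ↔ G.CliqueFree 3)) →
        (t * d * w : ℝ) * Real.logb 2 h < T := by
  classical
  have hβ0 : 0 < bet h := by unfold bet; positivity
  have hb0 : 0 < b := by rw [hb]; positivity
  have hm0 : 0 < m := by rw [hm]; positivity
  have hd0 : 0 < d := by rw [hd]; positivity
  have hw0 : 0 < w := lt_of_lt_of_le (by positivity) hw
  obtain ⟨σ, hσ⟩ := exists_expander (Fin d) (by simpa using hd0) (bet h ^ 4 / 2) (by positivity)
    De hβ
  obtain ⟨τ, hτ⟩ := exists_expander (Fin w) (by simpa using hw0) (bet h ^ 4 / 2) (by positivity)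
    De hβ
  set E : Fin d × Fin w → Fin d × Fin w → Prop := EP σ τ with hE
  set cE := (Finset.univ.filter fun p : (Fin d × Fin w) × (Fin d × Fin w) => E p.1 p.2).card
    with hcE
  have hcEle : cE ≤ t * d * w := by
    have h1 := EP_card σ τ
    rw [Fintype.card_fin, Fintype.card_fin] at h1
    calc cE ≤ d * w * De ^ 2 := h1
      _ ≤ d * w * t := Nat.mul_le_mul_left _ htD
      _ = t * d * w := by ring
  set base := t * w + 2 * (d * w) + 2 * (t * d * w) + cE with hbase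
  have hbase_le : base ≤ s := by
    refine le_trans ?_ hs
    have e1 : t * w ≤ t * d * w := by
      rw [mul_assoc]
      exact Nat.mul_le_mul_left _ (Nat.le_mul_of_pos_left _ hd0)
    have e2 : d * w ≤ t * d * w := by
      rw [mul_assoc]
      exact Nat.le_mul_of_pos_left _ ht
    omega
  set pad := s - base with hpad
  refine ⟨t * w + (d * w + (d * w + pad)),
    fun v => dg (Equiv.refl (Fin t)) (Equiv.refl (Fin d)) (Equiv.refl (Fin w)) pad E
      ((enc (Equiv.refl (Fin t)) (Equiv.refl (Fin d)) (Equiv.refl (Fin w)) pad).symm v), ?_, ?_⟩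
  · rw [(enc (Equiv.refl (Fin t)) (Equiv.refl (Fin d)) (Equiv.refl (Fin w)) pad).symm.sum_comp
      (fun x => dg (Equiv.refl (Fin t)) (Equiv.refl (Fin d)) (Equiv.refl (Fin w)) pad E x),
      sum_dg, Fintype.card_fin, Fintype.card_fin, Fintype.card_fin, ← hcE]
    omega
  · intro Q Γ _ _ M T hQ hG hM
    by_contra hT
    push Not at hT
    apply no_machine D t d w (De ^ 2) h S g F b m hD ht hh (Nat.one_le_pow _ _ hDe) hS hg hb hm hd
      hw hyS hF E ?_ ?_ ?_
      (toLM (Equiv.refl (Fin t)) (Equiv.refl (Fin d)) (Equiv.refl (Fin w)) E M) T hT hQ hG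
    · intro z
      rw [← accepts_iff, hM, cliqueFree_iff]
      intro v
      obtain ⟨x, rfl⟩ := (enc (Equiv.refl (Fin t)) (Equiv.refl (Fin d)) (Equiv.refl (Fin w))
        pad).surjective v
      rw [adjList_graph, length_lst]
      simp
    · intro V W hVW
      have h1 := EP_mix (by simpa using hw0) (show 0 < bet h ^ 4 / 2 by positivity) σ τ hσ hτ V W hVW
      rw [Fintype.card_fin, Fintype.card_fin] at h1
      refine h1.trans (le_of_eq ?_)
      ring
    · intro π κ u _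
      exact EP_row σ τ π κ u
    · intro π κ v _
      exact EP_col σ τ π κ v

lemma exists_h (e x K : ℕ) (he0 : e ≠ 0) (hK : 1 ≤ K) (hx : K * 2 ^ e ≤ x) :
    ∃ h : ℕ, 2 ≤ h ∧ K * h ^ e ≤ x ∧ x < K * (h + 1) ^ e := by
  obtain ⟨g, hg⟩ : ∃ g, g = Nat.findGreatest (fun k => K * k ^ e ≤ x) x := ⟨_, rfl⟩
  have h2 : 2 ≤ x := by
    refine le_trans ?_ hx
    calc 2 ≤ 2 ^ e := Nat.le_self_pow he0 2
      _ ≤ K * 2 ^ e := Nat.le_mul_of_pos_left _ hK
  have hg2 : 2 ≤ g := by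
    rw [hg]
    exact Nat.le_findGreatest h2 hx
  have hg1 : K * g ^ e ≤ x := by
    rw [hg]
    exact Nat.findGreatest_spec (P := fun k => K * k ^ e ≤ x) (m := 2) h2 hx
  refine ⟨g, hg2, hg1, ?_⟩
  by_contra hcon
  push Not at hcon
  have h1 : g + 1 ≤ x := by
    refine le_trans ?_ hcon
    exact (Nat.le_self_pow he0 _).trans (Nat.le_mul_of_pos_left _ hK)
  have h3 := Nat.le_findGreatest (P := fun k => K * k ^ e ≤ x) h1 hcon
  rw [← hg] at h3
  omega

lemma log_card_le {c S : ℕ} (h : c ≤ 2 ^ S) : Real.log c ≤ S := by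
  rcases Nat.eq_zero_or_pos c with h0 | h0
  · rw [h0]; simp
  · have h1 : (0 : ℝ) < c := by exact_mod_cast h0
    have h2 : (c : ℝ) ≤ 2 ^ S := by exact_mod_cast h
    have h3 := Real.log_le_log h1 h2
    rw [Real.log_pow] at h3
    have h4 : Real.log 2 ≤ 1 := by
      have := Real.log_two_lt_d9; linarith
    calc Real.log c ≤ S * Real.log 2 := h3
      _ ≤ S * 1 := mul_le_mul_of_nonneg_left h4 (Nat.cast_nonneg _)
      _ = S := mul_one _

/-- The trade-off, the constant being a variable. -/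
theorem main_aux (D : ℕ) (hD : 1 ≤ D) (P : ℕ) (hP : 1 ≤ P)
    (hcond : ∀ h : ℕ, 1 ≤ h → Real.log 4 < ((P * h ^ 80 : ℕ) : ℝ) * (bet h ^ 4 / 2) ^ 2) :
    ∃ c : ℝ, 0 < c ∧ ∃ C : ℕ, ∀ s S g F : ℕ, 1 ≤ S → 1 ≤ g → s ≤ 2 ^ S →
      C * (S ^ D * g + S * F) ≤ s →
    ∃ (n : ℕ) (δ : Fin n → ℕ), 2 * n + ∑ v, δ v = 2 * s ∧
      ∀ (Q Γ : Type) [Fintype Q] [Fintype Γ] (M : Machine n D Q Γ) (T : ℕ),
        Fintype.card Q ≤ 2 ^ S → Fintype.card Γ ≤ 2 ^ g →
        (∀ G : SimpleGraph (Fin n), (∀ v, (adjList G v).length = δ v) →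
          (M.Accepts T F G ↔ G.CliqueFree 3)) →
        c * s * Real.log (s / (S ^ D * g + S * F)) ≤ T := by
  obtain ⟨K, hK⟩ : ∃ K, K = 12 * 2 ^ (26 + 14 * D) * P ^ 6 := ⟨_, rfl⟩
  obtain ⟨e, he⟩ : ∃ e, e = 489 + 3 * D := ⟨_, rfl⟩
  have hK1 : 1 ≤ K := by
    rw [hK]
    exact Nat.one_le_iff_ne_zero.2 (by positivity)
  have hKR : (1 : ℝ) ≤ K := by exact_mod_cast hK1
  have hlK : 0 ≤ Real.log K := Real.log_nonneg hKR
  have heR : (0 : ℝ) < 2 * e := by
    have : 0 < e := by omega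
    have h1 : (0 : ℝ) < e := by exact_mod_cast this
    linarith
  refine ⟨1 / (12 * (Real.log K + 2 * e)), by positivity, K * 2 ^ e, ?_⟩
  intro s S g F hS hg hsS hCS
  obtain ⟨X, hX⟩ : ∃ X, X = S ^ D * g + S * F := ⟨_, rfl⟩
  rw [← hX] at hCS
  have hX0 : 0 < X := by rw [hX]; positivity
  have hXR : (1 : ℝ) ≤ X := by exact_mod_cast hX0
  obtain ⟨h, hh2, hh1, hh3⟩ := exists_h e (s / X) K (by omega) hK1
    ((Nat.le_div_iff_mul_le hX0).2 hCS)
  have hKs : K * h ^ e * X ≤ s := (Nat.le_div_iff_mul_le hX0).1 hh1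
  have hsK : s < K * (h + 1) ^ e * X := by
    rw [Nat.div_lt_iff_lt_mul hX0] at hh3
    exact hh3
  clear hh1 hh3 hCS
  have hh : 1 ≤ h := by omega
  have hhR : (2 : ℝ) ≤ h := by exact_mod_cast hh2
  -- parameters
  obtain ⟨b, hb⟩ : ∃ b, b = 2 ^ 14 * h ^ 3 * S := ⟨_, rfl⟩
  obtain ⟨m, hm⟩ : ∃ m, m = 512 * h ^ 3 * b ^ D * g := ⟨_, rfl⟩
  obtain ⟨d, hd⟩ : ∃ d, d = 2 * h ^ 2 * m := ⟨_, rfl⟩
  obtain ⟨De, hDe⟩ : ∃ De, De = P * h ^ 80 := ⟨_, rfl⟩
  obtain ⟨w, hw⟩ : ∃ w, w = (256 * De ^ 2 * h ^ 2) ^ 2 := ⟨_, rfl⟩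
  have hDe1 : 1 ≤ De := by
    rw [hDe]
    exact Nat.one_le_iff_ne_zero.2 (by positivity)
  have hb0 : 0 < b := by rw [hb]; positivity
  have hm0 : 0 < m := by rw [hm]; positivity
  have hd0 : 0 < d := by rw [hd]; positivity
  have hw0 : 0 < w := by rw [hw]; positivity
  obtain ⟨t, ht⟩ : ∃ t, t = s / (6 * (d * w)) := ⟨_, rfl⟩
  have h6 : 0 < 6 * (d * w) := by positivity
  have hbD : b ^ D = 2 ^ (14 * D) * h ^ (3 * D) * S ^ D := by
    rw [hb, mul_pow, mul_pow, ← pow_mul, ← pow_mul]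
  have hcalc : De ^ 2 * (6 * (d * w)) * 2 = K * h ^ e * (S ^ D * g) := by
    rw [hd, hw, hK, hDe, hm, hbD, he]
    ring
  have htD : De ^ 2 ≤ t := by
    rw [ht, Nat.le_div_iff_mul_le h6]
    have h1 : K * h ^ e * (S ^ D * g) ≤ s := by
      refine le_trans ?_ hKs
      apply Nat.mul_le_mul_left
      rw [hX]
      exact Nat.le_add_right _ _
    omega
  have ht0 : 0 < t := lt_of_lt_of_le (by positivity) htD
  have hs1 : 6 * (t * d * w) ≤ s := by
    have h1 : t * (6 * (d * w)) ≤ s := by rw [ht]; exact Nat.div_mul_le_self _ _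
    calc 6 * (t * d * w) = t * (6 * (d * w)) := by ring
      _ ≤ s := h1
  have hs2 : s ≤ 12 * (t * d * w) := by
    have h1 : s < (t + 1) * (6 * (d * w)) := by
      rw [ht, mul_comm]; exact Nat.lt_mul_div_succ _ h6
    have h2 : t + 1 ≤ 2 * t := by omega
    calc s ≤ (t + 1) * (6 * (d * w)) := h1.le
      _ ≤ (2 * t) * (6 * (d * w)) := Nat.mul_le_mul_right _ h2
      _ = _ := by ring
  have hyS : t * d * w ≤ 2 ^ S := by
    refine le_trans ?_ hsS
    omega
  have hF : 2 ^ 13 * h ^ 2 * (S * F) ≤ t * d * w := by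
    have h1 : 12 * (2 ^ 13 * h ^ 2 * (S * F)) ≤ s := by
      calc 12 * (2 ^ 13 * h ^ 2 * (S * F)) ≤ K * h ^ e * (S * F) := by
            rw [← mul_assoc 12]
            apply Nat.mul_le_mul_right
            rw [← mul_assoc 12]
            apply Nat.mul_le_mul _ (Nat.pow_le_pow_right (by omega) (by omega))
            rw [hK]
            calc 12 * 2 ^ 13 ≤ 12 * 2 ^ (26 + 14 * D) :=
                  Nat.mul_le_mul_left _ (Nat.pow_le_pow_right (by omega) (by omega))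
              _ ≤ _ := Nat.le_mul_of_pos_right _ (by positivity)
        _ ≤ K * h ^ e * X := by
            apply Nat.mul_le_mul_left
            rw [hX]
            exact Nat.le_add_left _ _
        _ ≤ s := hKs
    omega
  obtain ⟨n, δ, hnδ, hmain⟩ := bound_params D t d w De h S g F b m hD ht0 hh hDe1 hS hg hb hm hd
    hw.ge hyS hF (by rw [hDe]; exact hcond h hh) htD s hs1
  refine ⟨n, δ, hnδ, fun Q Γ _ _ M T hQ hG hM => ?_⟩
  have hT := hmain Q Γ M T (log_card_le hQ) (log_card_le hG) hM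
  have hXc : ((S : ℝ) ^ D * g + S * F) = X := by rw [hX]; push_cast; ring
  rw [hXc]
  -- final estimate
  have hsR : (s : ℝ) ≤ 12 * ((t : ℝ) * d * w) := by exact_mod_cast hs2
  have hlogb1 : 1 ≤ Real.logb 2 h := by
    rw [Real.le_logb_iff_rpow_le (by norm_num) (by linarith), Real.rpow_one]
    exact hhR
  have hlogb2 : Real.log h ≤ Real.logb 2 h := log_le_logb (by linarith)
  have hs0 : (0 : ℝ) < s := by
    have h1 : 0 < s := lt_of_lt_of_le (by positivity) hs1
    exact_mod_cast h1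
  have hlog : Real.log ((s : ℝ) / X) ≤ (Real.log K + 2 * e) * Real.logb 2 h := by
    have h1 : (s : ℝ) / X ≤ K * ((h : ℝ) ^ 2) ^ e := by
      rw [div_le_iff₀ (by linarith)]
      have h2 : (s : ℝ) ≤ (K : ℝ) * ((h : ℝ) + 1) ^ e * X := by exact_mod_cast hsK.le
      refine h2.trans ?_
      apply mul_le_mul_of_nonneg_right _ (by positivity)
      apply mul_le_mul_of_nonneg_left _ (by positivity)
      exact pow_le_pow_left₀ (by positivity) (succ_le_sq hhR) _
    have h2 := Real.log_le_log (by positivity) h1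
    rw [Real.log_mul (by positivity) (by positivity), Real.log_pow, Real.log_pow] at h2
    push_cast at h2
    have h3 : Real.log K ≤ Real.log K * Real.logb 2 h := le_mul_of_one_le_right hlK hlogb1
    have h4 : (e : ℝ) * (2 * Real.log h) ≤ 2 * e * Real.logb 2 h := by
      calc (e : ℝ) * (2 * Real.log h) = 2 * e * Real.log h := by ring
        _ ≤ _ := mul_le_mul_of_nonneg_left hlogb2 heR.le
    linarith
  have hpos : (0 : ℝ) < 12 * (Real.log K + 2 * e) := by positivity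
  rw [div_mul_eq_mul_div, one_mul, div_mul_eq_mul_div, div_le_iff₀ hpos]
  have hlogs0 : 0 ≤ Real.log ((s : ℝ) / X) := by
    apply Real.log_nonneg
    rw [one_le_div (by linarith)]
    have h1 : X ≤ s := by
      refine le_trans ?_ hKs
      exact Nat.le_mul_of_pos_left _ (by positivity)
    exact_mod_cast h1
  calc (s : ℝ) * Real.log (s / X) ≤
      (12 * ((t : ℝ) * d * w)) * ((Real.log K + 2 * e) * Real.logb 2 h) :=
        mul_le_mul hsR hlog hlogs0 (by positivity)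
    _ = ((t * d * w : ℝ) * Real.logb 2 h) * (12 * (Real.log K + 2 * e)) := by ring
    _ ≤ T * (12 * (Real.log K + 2 * e)) := mul_le_mul_of_nonneg_right hT.le hpos.le

/-- The trade-off for machines with an unbounded memory with locality. -/
theorem main_bound (D : ℕ) (hD : 1 ≤ D) :
    ∃ c : ℝ, 0 < c ∧ ∃ C : ℕ, ∀ s S g F : ℕ, 1 ≤ S → 1 ≤ g → s ≤ 2 ^ S →
      C * (S ^ D * g + S * F) ≤ s →
    ∃ (n : ℕ) (δ : Fin n → ℕ), 2 * n + ∑ v, δ v = 2 * s ∧
      ∀ (Q Γ : Type) [Fintype Q] [Fintype Γ] (M : Machine n D Q Γ) (T : ℕ),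
        Fintype.card Q ≤ 2 ^ S → Fintype.card Γ ≤ 2 ^ g →
        (∀ G : SimpleGraph (Fin n), (∀ v, (adjList G v).length = δ v) →
          (M.Accepts T F G ↔ G.CliqueFree 3)) →
        c * s * Real.log (s / (S ^ D * g + S * F)) ≤ T :=
  main_aux D hD (2 ^ 283) Nat.one_le_two_pow P_cond

end Pool.Agent.HM
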